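import Mathlib

/-!
# Finite bounded ortholattices and extended permutohedra: definitions

Free lattices, bounded homomorphic images of free lattices, orthocomplementations, and the
ortholattice `Reg(e)` of regular closed subsets of a strict ordering `e`.
-/

set_option autoImplicit false

namespace Pool.Agent.MP_094405_al

/-! ### Free lattices -/

/-- Lattice terms in variables from `X`. -/
inductive LTerm (X : Type) : Type
  | var : X → LTerm X
  | sup : LTerm X → LTerm X → LTerm X
  | inf : LTerm X → LTerm X → LTerm X

/-- The least congruence relation on lattice terms that satisfies the lattice axioms. -/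
inductive LTerm.Eqv {X : Type} : LTerm X → LTerm X → Prop
  | refl (a : LTerm X) : Eqv a a
  | symm {a b : LTerm X} : Eqv a b → Eqv b a
  | trans {a b c : LTerm X} : Eqv a b → Eqv b c → Eqv a c
  | sup_congr {a a' b b' : LTerm X} : Eqv a a' → Eqv b b' → Eqv (a.sup b) (a'.sup b')
  | inf_congr {a a' b b' : LTerm X} : Eqv a a' → Eqv b b' → Eqv (a.inf b) (a'.inf b')
  | sup_comm (a b : LTerm X) : Eqv (a.sup b) (b.sup a)
  | sup_assoc (a b c : LTerm X) : Eqv ((a.sup b).sup c) (a.sup (b.sup c))
  | inf_comm (a b : LTerm X) : Eqv (a.inf b) (b.inf a)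
  | inf_assoc (a b c : LTerm X) : Eqv ((a.inf b).inf c) (a.inf (b.inf c))
  | sup_inf_self (a b : LTerm X) : Eqv (a.sup (a.inf b)) a
  | inf_sup_self (a b : LTerm X) : Eqv (a.inf (a.sup b)) a

/-- Lattice terms up to the lattice axioms. -/
def LTerm.setoid (X : Type) : Setoid (LTerm X) where
  r := LTerm.Eqv
  iseqv := ⟨LTerm.Eqv.refl, LTerm.Eqv.symm, LTerm.Eqv.trans⟩

/-- The free lattice on the set `X`: lattice terms modulo the lattice axioms. -/
def FreeLat (X : Type) : Type := Quotient (LTerm.setoid X)

namespace FreeLat

variable {X : Type}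

/-- The free generators of the free lattice. -/
def of (x : X) : FreeLat X := Quotient.mk (LTerm.setoid X) (LTerm.var x)

/-- The join in the free lattice, induced by the join of terms. -/
def join : FreeLat X → FreeLat X → FreeLat X :=
  Quotient.map₂ LTerm.sup (fun _ _ h _ _ h' => LTerm.Eqv.sup_congr h h')

/-- The meet in the free lattice, induced by the meet of terms. -/
def meet : FreeLat X → FreeLat X → FreeLat X :=
  Quotient.map₂ LTerm.inf (fun _ _ h _ _ h' => LTerm.Eqv.inf_congr h h')

instance : Lattice (FreeLat X) :=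
  letI : Max (FreeLat X) := ⟨join⟩
  letI : Min (FreeLat X) := ⟨meet⟩
  Lattice.mk'
    (by rintro ⟨a⟩ ⟨b⟩; exact Quotient.sound (LTerm.Eqv.sup_comm a b))
    (by rintro ⟨a⟩ ⟨b⟩ ⟨c⟩; exact Quotient.sound (LTerm.Eqv.sup_assoc a b c))
    (by rintro ⟨a⟩ ⟨b⟩; exact Quotient.sound (LTerm.Eqv.inf_comm a b))
    (by rintro ⟨a⟩ ⟨b⟩ ⟨c⟩; exact Quotient.sound (LTerm.Eqv.inf_assoc a b c))
    (by rintro ⟨a⟩ ⟨b⟩; exact Quotient.sound (LTerm.Eqv.sup_inf_self a b))
    (by rintro ⟨a⟩ ⟨b⟩; exact Quotient.sound (LTerm.Eqv.inf_sup_self a b))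

end FreeLat

/-- The lattice `K` is a bounded homomorphic image of a free lattice: there is a surjective
lattice homomorphism from a finitely generated free lattice onto `K` such that the fibre over
each element of `K` has a least and a greatest element. -/
def IsBoundedImageOfFree (K : Type) [Lattice K] : Prop :=
  ∃ (X : Type) (_ : Finite X) (h : LatticeHom (FreeLat X) K), Function.Surjective h ∧
    ∀ a : K, (∃ l, IsLeast {f | h f = a} l) ∧ (∃ g, IsGreatest {f | h f = a} g)

/-! ### Orthocomplementations -/

/-- `perp` is an orthocomplementation on the bounded lattice `K`. -/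
structure IsOrtho {K : Type} [Lattice K] [BoundedOrder K] (perp : K → K) : Prop where
  anti : ∀ {x y : K}, x ≤ y → perp y ≤ perp x
  invol : ∀ x : K, perp (perp x) = x
  inf_perp : ∀ x : K, x ⊓ perp x = ⊥

/-! ### Regular closed subsets of a transitive relation -/

section Reg

variable {E : Type}

/-- A relation is closed if it is transitive. -/
def IsClosedRel (a : E → E → Prop) : Prop := ∀ x y z, a x y → a y z → a x z

/-- `e` is a strict ordering: irreflexive and transitive. -/
def IsStrictOrdering (e : E → E → Prop) : Prop := (∀ x, ¬ e x x) ∧ IsClosedRel e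

/-- The transitive closure. -/
def tcl (a : E → E → Prop) : E → E → Prop := Relation.TransGen a

/-- `a` is open in `e` if `e ∖ a` is closed. -/
def IsOpenRel (e a : E → E → Prop) : Prop := IsClosedRel (fun x y => e x y ∧ ¬ a x y)

/-- The interior of `a`: the union of all open subsets of `a`, which is its largest open
subset. -/
def interior (e a : E → E → Prop) : E → E → Prop := fun x y =>
  ∃ b : E → E → Prop, (∀ u v, b u v → a u v) ∧ IsOpenRel e b ∧ b x y

/-- `a ⊆ e` is regular closed if it is the transitive closure of its interior. -/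
def IsRegularClosed (e a : E → E → Prop) : Prop :=
  (∀ x y, a x y → e x y) ∧ a = tcl (interior e a)

/-- `f` is an embedding of ortholattices of `(K, perp)` into `Reg(e)`, the ortholattice of
regular closed subsets of `e`, with join `tcl (a ∪ b)`, meet `tcl (int (a ∩ b))` and
orthocomplement `tcl (e ∖ a)`. -/
structure IsEmbeddingIntoReg {K : Type} [Lattice K] (perp : K → K) (e : E → E → Prop)
    (f : K → E → E → Prop) : Prop where
  regular : ∀ x, IsRegularClosed e (f x)
  injective : Function.Injective f
  map_sup : ∀ x y, f (x ⊔ y) = tcl (fun p q => f x p q ∨ f y p q)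
  map_inf : ∀ x y, f (x ⊓ y) = tcl (interior e (fun p q => f x p q ∧ f y p q))
  map_perp : ∀ x, f (perp x) = tcl (fun p q => e p q ∧ ¬ f x p q)

end Reg

end Pool.Agent.MP_094405_al
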