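import Pool.Agent.MP_094405_al.SpineEx

/-!
# Frames

A frame is a finite strictly ordered set whose pairs `a < b` are labelled by ultrafilters of the
ortholattice `K` (self-dual upper sets), such that the pairs whose label contains `x ⊔ y` lie in
the transitive closure of the pairs whose label contains `x` or `y`.
-/

set_option autoImplicit false
set_option linter.unusedSectionVars false

namespace Pool.Agent.MP_094405_al

open Relation

section FrameDef

variable {K : Type} [Lattice K] [BoundedOrder K]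

/-- Self-dual upper sets. -/
structure IsUF (perp : K → K) (S : Set K) : Prop where
  up : ∀ {x y : K}, x ≤ y → x ∈ S → y ∈ S
  dual : ∀ x : K, perp x ∈ S ↔ x ∉ S

/-- Frames. -/
structure Frame {K : Type} [Lattice K] [BoundedOrder K] (perp : K → K) where
  E : Type
  fin : Finite E
  R : E → E → Set K → Prop
  uniq : ∀ {a b : E} {S T : Set K}, R a b S → R a b T → S = T
  irr : ∀ {a : E} {S : Set K}, ¬ R a a S
  uf : ∀ {a b : E} {S : Set K}, R a b S → IsUF perp S
  comp : ∀ {a b c : E} {S T : Set K}, R a b S → R b c T → ∃ U, R a c U ∧ S ∩ T ⊆ U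
  req : ∀ {a b : E} {S : Set K} (x y : K), R a b S → x ⊔ y ∈ S →
    TransGen (fun p q => ∃ T, R p q T ∧ (x ∈ T ∨ y ∈ T)) a b

/-- The opposite frame. -/
def Frame.mirror {perp : K → K} (F : Frame perp) : Frame perp where
  E := F.E
  fin := F.fin
  R := fun a b S => F.R b a S
  uniq := F.uniq
  irr := F.irr
  uf := F.uf
  comp := by
    intro a b c S T h h'
    obtain ⟨U, hU, hU'⟩ := F.comp h' h
    exact ⟨U, hU, fun x hx => hU' ⟨hx.2, hx.1⟩⟩
  req := by
    intro a b S x y h hxy
    exact transGen_swap.2 (F.req x y h hxy)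

/-- The ultrafilter of an atom. -/
def UL (l : K) : Set K := {w | l ≤ w}

/-- The ultrafilter obtained from that of the atom `l` by adding `d`. -/
def Rl (perp : K → K) (l d : K) : Set K := {w | d ≤ w ∨ (l ≤ w ∧ ¬ w ≤ perp d)}

end FrameDef

section Lemmas

variable {K : Type} [Lattice K] [BoundedOrder K] [Finite K] {perp : K → K} {N : K → ℕ}
variable (hp : IsOrtho perp) (hN : ∀ j c : K, D j c → N c < N j)
include hp hN

theorem isUF_UL {l : K} (hl : IsAtom l) : IsUF perp (UL l) where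
  up := fun hxy hx => le_trans hx hxy
  dual := by
    intro x
    constructor
    · intro h h'
      exact atom_not_both hp hl h' h
    · intro h
      exact (atom_or hp hN hl x).resolve_left h

theorem isUF_Rl {l d : K} (hl : IsAtom l) (hd : d ≠ ⊥) : IsUF perp (Rl perp l d) where
  up := by
    intro x y hxy hx
    rcases hx with h | ⟨h1, h2⟩
    · exact Or.inl (h.trans hxy)
    · exact Or.inr ⟨h1.trans hxy, fun h => h2 (hxy.trans h)⟩
  dual := by
    intro w
    have key : d ≤ w → ¬ w ≤ perp d := by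
      intro h h'
      exact hd (hp.eq_bot_of_le h (hp.le_perp.1 h'))
    have e1 : d ≤ perp w ↔ w ≤ perp d := hp.le_perp
    have e2 : perp w ≤ perp d ↔ d ≤ w := hp.le_iff
    have h3 := atom_or hp hN hl w
    have h4 : l ≤ w → ¬ l ≤ perp w := fun h => atom_not_both hp hl h
    change (d ≤ perp w ∨ (l ≤ perp w ∧ ¬ perp w ≤ perp d)) ↔
      ¬ (d ≤ w ∨ (l ≤ w ∧ ¬ w ≤ perp d))
    rw [e1, e2]
    tauto

omit [Finite K] hN in
theorem Rl_comp {l x y z : K} (hx : x ≠ ⊥) (hxz : x ≤ z) (hz : z ≤ x ⊔ y) :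
    Rl perp l x ∩ Rl perp l y ⊆ Rl perp l z := by
  rintro w ⟨h1, h2⟩
  have hperp : perp z ≤ perp x := hp.anti hxz
  by_cases hlw : l ≤ w
  · refine Or.inr ⟨hlw, ?_⟩
    intro h3
    rcases h1 with h1 | ⟨_, h1⟩
    · exact hx (hp.eq_bot_of_le h1 (hp.le_perp.1 (h3.trans hperp)))
    · exact h1 (h3.trans hperp)
  · rcases h1 with h1 | ⟨h1, _⟩
    · rcases h2 with h2 | ⟨h2, _⟩
      · exact Or.inl (hz.trans (sup_le h1 h2))
      · exact absurd h2 hlw
    · exact absurd h1 hlw

omit [Finite K] hN in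
theorem Rl_UL {l x z : K} (hx : x ≠ ⊥) (hxz : x ≤ z) :
    Rl perp l x ∩ UL l ⊆ Rl perp l z := by
  rintro w ⟨h1, h2⟩
  have hperp : perp z ≤ perp x := hp.anti hxz
  refine Or.inr ⟨h2, ?_⟩
  intro h3
  rcases h1 with h1 | ⟨_, h1⟩
  · exact hx (hp.eq_bot_of_le h1 (hp.le_perp.1 (h3.trans hperp)))
  · exact h1 (h3.trans hperp)

omit [Finite K] hN in
theorem UF_UL {l x z : K} {S : Set K} (hS : IsUF perp S) (hx : x ∈ S) (hxz : x ≤ z) :
    S ∩ UL l ⊆ Rl perp l z := by
  rintro w ⟨h1, h2⟩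
  have hperp : perp z ≤ perp x := hp.anti hxz
  refine Or.inr ⟨h2, ?_⟩
  intro h3
  exact (hS.dual x).1 (hS.up (h3.trans hperp) h1) hx

/-- The frame with two points whose label is the ultrafilter of an atom. -/
def Frame.two {l : K} (hl : IsAtom l) : Frame perp where
  E := Bool
  fin := inferInstance
  R := fun a b S => a = false ∧ b = true ∧ S = UL l
  uniq := by
    rintro a b S T ⟨_, _, rfl⟩ ⟨_, _, rfl⟩
    rfl
  irr := by
    rintro a S ⟨h1, h2, _⟩
    rw [h1] at h2
    exact Bool.false_ne_true h2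
  uf := by
    rintro a b S ⟨_, _, rfl⟩
    exact isUF_UL hp hN hl
  comp := by
    rintro a b c S T ⟨_, h2, _⟩ ⟨h3, _, _⟩
    rw [h2] at h3
    exact absurd h3.symm Bool.false_ne_true
  req := by
    rintro a b S x y ⟨rfl, rfl, rfl⟩ h
    exact TransGen.single ⟨_, ⟨rfl, rfl, rfl⟩, atom_prime hp hN hl h⟩

end Lemmas

/-! ### Gluing frames to a spine -/

section Glue

variable {K : Type} [Lattice K] [BoundedOrder K]

/-- The reflexive closure of the order of a spine. -/
def Spine.Le {m : K} (S : Spine m) (a b : S.E) : Prop := a = b ∨ ∃ y, S.R a b y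

theorem Spine.Le.comp_left {m : K} {S : Spine m} {a b c : S.E} {x : K} (h : S.R a b x)
    (h' : S.Le b c) : ∃ z, S.R a c z ∧ x ≤ z := by
  rcases h' with rfl | ⟨y, h'⟩
  · exact ⟨x, h, le_rfl⟩
  · obtain ⟨z, hz, hz', _⟩ := S.comp h h'
    exact ⟨z, hz, hz'⟩

theorem Spine.Le.comp_right {m : K} {S : Spine m} {a b c : S.E} {x : K} (h' : S.Le a b)
    (h : S.R b c x) : ∃ z, S.R a c z := by
  rcases h' with rfl | ⟨y, h'⟩
  · exact ⟨x, h⟩
  · obtain ⟨z, hz, _, _⟩ := S.comp h' h
    exact ⟨z, hz⟩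

/-- The labelled relation of the glued frame. -/
inductive FR {perp : K → K} {m : K} (l : K) (S : Spine m) {I : Type} (p q : I → S.E)
    (F : I → Frame perp) (b : ∀ i, (F i).E) :
    S.E ⊕ (Σ i, (F i).E) → S.E ⊕ (Σ i, (F i).E) → Set K → Prop
  | ss {a c : S.E} {x : K} : S.R a c x → FR l S p q F b (Sum.inl a) (Sum.inl c) (Rl perp l x)
  | s1 {a : S.E} {i : I} {τ : (F i).E} {T : Set K} : a = p i → (F i).R (b i) τ T →
      FR l S p q F b (Sum.inl a) (Sum.inr ⟨i, τ⟩) T
  | s2 {a : S.E} {i : I} {τ : (F i).E} {x : K} : S.R a (p i) x →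
      FR l S p q F b (Sum.inl a) (Sum.inr ⟨i, τ⟩) (Rl perp l x)
  | bs {i : I} {τ : (F i).E} {c : S.E} : S.Le (q i) c →
      FR l S p q F b (Sum.inr ⟨i, τ⟩) (Sum.inl c) (UL l)
  | bb {i : I} {τ τ' : (F i).E} {T : Set K} : (F i).R τ τ' T →
      FR l S p q F b (Sum.inr ⟨i, τ⟩) (Sum.inr ⟨i, τ'⟩) T
  | bc {i k : I} {τ : (F i).E} {τ' : (F k).E} : S.Le (q i) (p k) →
      FR l S p q F b (Sum.inr ⟨i, τ⟩) (Sum.inr ⟨k, τ'⟩) (UL l)

end Glue

section Glue2

variable {K : Type} [Lattice K] [BoundedOrder K] [Finite K] {perp : K → K} {N : K → ℕ}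

/-- The glued frame. -/
def fglue (hp : IsOrtho perp) (hN : ∀ j c : K, D j c → N c < N j) {l : K} (hl : IsAtom l)
    (S : Spine (perp l)) {I : Type} [Finite I] (p q : I → S.E) (x : I → K)
    (hR : ∀ i, S.R (p i) (q i) (x i)) (F : I → Frame perp) (b : ∀ i, (F i).E)
    (hD : ∀ i τ T, (F i).R (b i) τ T → x i ∈ T)
    (hblk : ∀ a c d, S.R a c d → ∀ y, ¬ l ≤ y → ¬ y ≤ perp d →
      ∃ i, p i = a ∧ q i = c ∧ ∃ t T, (F i).R (b i) t T ∧ y ∈ T) : Frame perp where
  E := S.E ⊕ (Σ i, (F i).E)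
  fin := by
    have := S.fin
    have := fun i => (F i).fin
    infer_instance
  R := FR l S p q F b
  uniq := by
    have hno : ∀ i, ¬ S.Le (q i) (p i) := by
      intro i h
      obtain ⟨z, hz, _⟩ := h.comp_left (hR i)
      exact S.irr hz
    intro a c T T' h h'
    cases h with
    | ss h1 => cases h' with
      | ss h2 => rw [S.uniq h1 h2]
    | s1 e h1 => cases h' with
      | s1 _ h2 => exact (F _).uniq h1 h2
      | s2 h2 =>
        subst e
        exact absurd h2 S.irr
    | s2 h1 => cases h' with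
      | s1 e h2 =>
        subst e
        exact absurd h1 S.irr
      | s2 h2 => rw [S.uniq h1 h2]
    | bs h1 => cases h' with
      | bs h2 => rfl
    | bb h1 => cases h' with
      | bb h2 => exact (F _).uniq h1 h2
      | bc h2 => exact absurd h2 (hno _)
    | bc h1 => cases h' with
      | bb h2 => exact absurd h1 (hno _)
      | bc h2 => rfl
  irr := by
    have hno : ∀ i, ¬ S.Le (q i) (p i) := by
      intro i h
      obtain ⟨z, hz, _⟩ := h.comp_left (hR i)
      exact S.irr hz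
    intro a T h
    cases h with
    | ss h => exact S.irr h
    | bb h => exact (F _).irr h
    | bc h => exact hno _ h
  uf := by
    intro a c T h
    cases h with
    | ss h => exact isUF_Rl hp hN hl (S.ne h)
    | s1 _ h => exact (F _).uf h
    | s2 h => exact isUF_Rl hp hN hl (S.ne h)
    | bs h => exact isUF_UL hp hN hl
    | bb h => exact (F _).uf h
    | bc h => exact isUF_UL hp hN hl
  comp := by
    intro a c e T T' h h'
    cases h with
    | ss h1 => cases h' with
      | ss h2 =>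
        obtain ⟨z, hz, hz1, hz2⟩ := S.comp h1 h2
        exact ⟨_, FR.ss hz, Rl_comp hp (S.ne h1) hz1 hz2⟩
      | s1 e h2 =>
        subst e
        exact ⟨_, FR.s2 h1, Set.inter_subset_left⟩
      | s2 h2 =>
        obtain ⟨z, hz, hz1, hz2⟩ := S.comp h1 h2
        exact ⟨_, FR.s2 hz, Rl_comp hp (S.ne h1) hz1 hz2⟩
    | @s1 a i τ T e h1 =>
      subst e
      cases h' with
      | bs h2 =>
        obtain ⟨z, hz, hz1⟩ := h2.comp_left (hR i)
        exact ⟨_, FR.ss hz, UF_UL hp ((F i).uf h1) (hD i _ _ h1) hz1⟩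
      | bb h2 =>
        obtain ⟨U, hU, hU'⟩ := (F i).comp h1 h2
        exact ⟨U, FR.s1 rfl hU, hU'⟩
      | bc h2 =>
        obtain ⟨z, hz, hz1⟩ := h2.comp_left (hR i)
        exact ⟨_, FR.s2 hz, UF_UL hp ((F i).uf h1) (hD i _ _ h1) hz1⟩
    | @s2 a i τ x h1 =>
      obtain ⟨u, hu, hu1, _⟩ := S.comp h1 (hR i)
      cases h' with
      | bs h2 =>
        obtain ⟨z, hz, hz1⟩ := h2.comp_left hu
        exact ⟨_, FR.ss hz, Rl_UL hp (S.ne h1) (hu1.trans hz1)⟩
      | bb h2 => exact ⟨_, FR.s2 h1, Set.inter_subset_left⟩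
      | bc h2 =>
        obtain ⟨z, hz, hz1⟩ := h2.comp_left hu
        exact ⟨_, FR.s2 hz, Rl_UL hp (S.ne h1) (hu1.trans hz1)⟩
    | bs h1 => cases h' with
      | ss h2 =>
        obtain ⟨z, hz⟩ := h1.comp_right h2
        exact ⟨_, FR.bs (Or.inr ⟨z, hz⟩), Set.inter_subset_left⟩
      | s1 e h2 =>
        subst e
        exact ⟨_, FR.bc h1, Set.inter_subset_left⟩
      | s2 h2 =>
        obtain ⟨z, hz⟩ := h1.comp_right h2
        exact ⟨_, FR.bc (Or.inr ⟨z, hz⟩), Set.inter_subset_left⟩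
    | bb h1 => cases h' with
      | bs h2 => exact ⟨_, FR.bs h2, Set.inter_subset_right⟩
      | bb h2 =>
        obtain ⟨U, hU, hU'⟩ := (F _).comp h1 h2
        exact ⟨U, FR.bb hU, hU'⟩
      | bc h2 => exact ⟨_, FR.bc h2, Set.inter_subset_right⟩
    | @bc i k τ τ' h1 =>
      obtain ⟨u, hu⟩ := h1.comp_right (hR k)
      cases h' with
      | bs h2 =>
        obtain ⟨z, hz, _⟩ := h2.comp_left hu
        exact ⟨_, FR.bs (Or.inr ⟨z, hz⟩), Set.inter_subset_left⟩
      | bb h2 => exact ⟨_, FR.bc h1, Set.inter_subset_left⟩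
      | bc h2 =>
        obtain ⟨z, hz, _⟩ := h2.comp_left hu
        exact ⟨_, FR.bc (Or.inr ⟨z, hz⟩), Set.inter_subset_left⟩
  req := by
    intro a c T x y h hxy
    set r : S.E ⊕ (Σ i, (F i).E) → S.E ⊕ (Σ i, (F i).E) → Prop :=
      fun u v => ∃ T, FR l S p q F b u v T ∧ (x ∈ T ∨ y ∈ T) with hr
    have hdl : ∀ {w : K}, ¬ l ≤ w → w ≤ perp l := by
      intro w hw
      exact hp.le_perp.1 ((atom_or hp hN hl w).resolve_left hw)
    -- spine pairs
    have hA : ∀ a c d, S.R a c d → x ⊔ y ∈ Rl perp l d → TransGen r (Sum.inl a) (Sum.inl c) := by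
      intro a c d had hd
      have hdne := S.ne had
      by_cases hlxy : l ≤ x ⊔ y
      · have h1 : ¬ x ⊔ y ≤ perp d := by
          rcases hd with hd | ⟨_, hd⟩
          · intro h2
            exact hdne (hp.eq_bot_of_le hd (hp.le_perp.1 h2))
          · exact hd
        rw [sup_le_iff, not_and_or] at h1
        by_cases hlx : l ≤ x
        · by_cases hx : x ≤ perp d
          · have hy : ¬ y ≤ perp d := h1.resolve_left (not_not.2 hx)
            by_cases hly : l ≤ y
            · exact TransGen.single ⟨_, FR.ss had, Or.inr (Or.inr ⟨hly, hy⟩)⟩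
            · obtain ⟨i, rfl, rfl, t, T, ht, hyT⟩ := hblk a c d had y hly hy
              exact TransGen.head ⟨_, FR.s1 rfl ht, Or.inr hyT⟩
                (TransGen.single ⟨_, FR.bs (Or.inl rfl), Or.inl hlx⟩)
          · exact TransGen.single ⟨_, FR.ss had, Or.inl (Or.inr ⟨hlx, hx⟩)⟩
        · have hly : l ≤ y := (atom_prime hp hN hl hlxy).resolve_left hlx
          by_cases hy : y ≤ perp d
          · have hx : ¬ x ≤ perp d := h1.resolve_right (not_not.2 hy)
            obtain ⟨i, rfl, rfl, t, T, ht, hxT⟩ := hblk a c d had x hlx hx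
            exact TransGen.head ⟨_, FR.s1 rfl ht, Or.inl hxT⟩
              (TransGen.single ⟨_, FR.bs (Or.inl rfl), Or.inr hly⟩)
          · exact TransGen.single ⟨_, FR.ss had, Or.inr (Or.inr ⟨hly, hy⟩)⟩
      · have hd' : d ≤ x ⊔ y := by
          rcases hd with hd | ⟨hd, _⟩
          · exact hd
          · exact absurd hd hlxy
        have hlx : ¬ l ≤ x := fun h => hlxy (h.trans le_sup_left)
        have hly : ¬ l ≤ y := fun h => hlxy (h.trans le_sup_right)
        refine tg_lift (p := r) Sum.inl ?_ (S.req x y had (hdl hlx) (hdl hly) hd')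
        rintro u v ⟨d', hd', h⟩
        exact ⟨_, FR.ss hd', h.imp Or.inl Or.inl⟩
    -- replacing the last step
    have hC : ∀ (i : I) (τ : (F i).E) u, TransGen r u (Sum.inl (p i)) →
        TransGen r u (Sum.inr ⟨i, τ⟩) := by
      intro i τ u h
      obtain ⟨v, huv, T, hT, hTx⟩ := TransGen.tail'_iff.1 h
      refine TransGen.tail' huv ⟨T, ?_, hTx⟩
      generalize hw : (Sum.inl (p i) : S.E ⊕ (Σ i, (F i).E)) = w at hT
      cases hT with
      | ss h1 =>
        rw [Sum.inl.injEq] at hw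
        subst hw
        exact FR.s2 h1
      | bs h1 =>
        rw [Sum.inl.injEq] at hw
        subst hw
        exact FR.bc h1
      | s1 => cases hw
      | s2 => cases hw
      | bb => cases hw
      | bc => cases hw
    cases h with
    | ss h1 => exact hA _ _ _ h1 hxy
    | @s1 a i τ T e h1 =>
      obtain ⟨σ, ⟨T', hT', hT'x⟩, h2⟩ := TransGen.head'_iff.1 ((F i).req x y h1 hxy)
      refine TransGen.head' ⟨T', FR.s1 e hT', hT'x⟩ ?_
      clear hT' h1
      induction h2 with
      | refl => exact ReflTransGen.refl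
      | tail _ h4 ih =>
        obtain ⟨T4, hT4, h5⟩ := h4
        exact ReflTransGen.tail ih ⟨T4, FR.bb hT4, h5⟩
    | @s2 a i τ x' h1 => exact hC i τ _ (hA _ _ _ h1 hxy)
    | bs h1 => exact TransGen.single ⟨_, FR.bs h1, atom_prime hp hN hl hxy⟩
    | @bb i τ τ' T h1 =>
      refine tg_lift (p := r) (fun σ => Sum.inr ⟨i, σ⟩) ?_ ((F i).req x y h1 hxy)
      rintro u v ⟨T4, hT4, h5⟩
      exact ⟨T4, FR.bb hT4, h5⟩
    | bc h1 => exact TransGen.single ⟨_, FR.bc h1, atom_prime hp hN hl hxy⟩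

/-- The induction statement. -/
def HasFrame (perp : K → K) (j l : K) : Prop :=
  ∃ (F : Frame perp) (bot top : F.E), F.R bot top (Rl perp l j) ∧
    ∀ p S, F.R p top S → ∀ x, l ≤ x → star j ≤ perp x → ¬ j ≤ perp x → x ∈ S

open Classical in
theorem exists_frame (hp : IsOrtho perp) (hN : ∀ j c : K, D j c → N c < N j) :
    ∀ (n : ℕ) (j l : K), 2 * rk j + (if l ≤ sig perp j then 0 else 1) = n → SupIrred j →
      IsAtom l → ¬ l ≤ j → HasFrame perp j l := by
  intro n
  induction n using Nat.strong_induction_on with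
  | _ n ih =>
    intro j l hn hj hl hlj
    have hjm : j ≤ perp l := hp.le_perp.1 ((atom_or hp hN hl j).resolve_left hlj)
    obtain ⟨S, hS, hS2, hS3⟩ := exists_spine hp hN (rk j) j rfl hj hjm
    have hfin := S.fin
    let I := {i : S.E × S.E × K × K // S.R i.1 i.2.1 i.2.2.1 ∧ SupIrred i.2.2.2 ∧
      ¬ l ≤ i.2.2.2 ∧ star i.2.2.2 ≤ perp i.2.2.1 ∧ ¬ i.2.2.2 ≤ perp i.2.2.1}
    have hblock : ∀ i : I, ∃ (F : Frame perp) (b t : F.E) (T : Set K), F.R b t T ∧
        i.1.2.2.2 ∈ T ∧ ∀ τ U, F.R b τ U → i.1.2.2.1 ∈ U := by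
      rintro ⟨⟨p, q, x, s⟩, hpq, hs, hls, hsx, hsx'⟩
      dsimp only at hpq hs hls hsx hsx' ⊢
      obtain ⟨l', hl', hl'x⟩ := (eq_bot_or_exists_atom_le x).resolve_left (S.ne hpq)
      by_cases hl's : l' ≤ s
      · refine ⟨Frame.two hp hN hl', false, true, UL l', ⟨rfl, rfl, rfl⟩, hl's, ?_⟩
        rintro τ U ⟨_, _, rfl⟩
        exact hl'x
      · have hmeas : 2 * rk s + (if l' ≤ sig perp s then 0 else 1) < n := by
          have hlt : rk s < rk j → 2 * rk s + (if l' ≤ sig perp s then 0 else 1) < n := by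
            intro h
            rw [← hn]
            split_ifs <;> omega
          rcases hS3 _ _ _ hpq with rfl | hg
          · rcases rk_of_min hp hN hj hs hsx hsx' with rfl | h
            · rw [← hn, rk_sig hp hN hj, sig_sig hp hN hj, if_pos hl'x, if_neg hls]
              omega
            · exact hlt h
          · exact hlt (hg s hs hsx hsx')
        obtain ⟨F, bot, top, hF1, hF2⟩ := ih _ hmeas s l' rfl hs hl' hl's
        refine ⟨F.mirror, top, bot, _, hF1, Or.inl le_rfl, ?_⟩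
        intro τ U hU
        exact hF2 τ U hU x hl'x hsx hsx'
    choose F b t T hF1 hF2 hF3 using hblock
    refine ⟨fglue hp hN hl S (fun i : I => i.1.1) (fun i => i.1.2.1) (fun i => i.1.2.2.1)
      (fun i => i.2.1) F b hF3 ?_, Sum.inl S.bot, Sum.inl S.top, FR.ss hS, ?_⟩
    · intro a c d had y hly hyd
      obtain ⟨s, hsy, hs, hsd, hssd⟩ := exists_supIrred_not_le hyd
      let i : I := ⟨(a, c, d, s), had, hs, fun h => hly (h.trans hsy), hssd, hsd⟩
      exact ⟨i, rfl, rfl, t i, T i, hF1 i, ((F i).uf (hF1 i)).up hsy (hF2 i)⟩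
    · intro p U hU x hlx hx1 hx2
      change FR l S _ _ F b p (Sum.inl S.top) U at hU
      cases hU with
      | @ss a _ y h1 =>
        refine Or.inr ⟨hlx, ?_⟩
        intro h2
        exact hx2 ((hS2 _ _ h1).trans (sup_le hx1 (hp.le_perp.1 h2)))
      | bs h1 => exact hlx

end Glue2

end Pool.Agent.MP_094405_al
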