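import Pool.Agent.MP_094405_al.Defs

/-!
# Join-irreducible elements and the dependency relation
-/

set_option autoImplicit false
set_option linter.unusedSectionVars false

namespace Pool.Agent.MP_094405_al

section Basic

variable {K : Type} [Lattice K] [BoundedOrder K] [Finite K]

/-- The join of all elements strictly below `j`. -/
noncomputable def star (j : K) : K := (Set.toFinite {x | x < j}).toFinset.sup id

theorem le_star {x j : K} (h : x < j) : x ≤ star j :=
  Finset.le_sup (f := id) (by simpa using h)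

theorem star_le (j : K) : star j ≤ j :=
  Finset.sup_le (fun x hx => le_of_lt (by simpa using hx))

theorem star_lt {j : K} (hj : SupIrred j) : star j < j := by
  refine lt_of_le_of_ne (star_le j) ?_
  intro h
  obtain ⟨i, hi, hij⟩ := hj.finset_sup_eq h
  have : i < j := by simpa using hi
  exact this.ne hij

theorem le_star_iff {x j : K} (hj : SupIrred j) : x ≤ star j ↔ x < j :=
  ⟨fun h => lt_of_le_of_lt h (star_lt hj), le_star⟩

theorem inf_le_star {x j : K} (h : ¬ j ≤ x) : j ⊓ x ≤ star j :=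
  le_star (lt_of_le_of_ne inf_le_left (fun he => h (he ▸ inf_le_right)))

/-- The dependency relation. -/
def D (j c : K) : Prop := SupIrred c ∧ c ≠ j ∧ ∃ t, j ≤ c ⊔ t ∧ ¬ j ≤ star c ⊔ t

/-- A minimal element of the complement of an ideal-like set is join-irreducible. -/
theorem supIrred_of_min {c t : K} (hc : ¬ c ≤ t) (hmin : ∀ x, x < c → x ≤ t) : SupIrred c := by
  refine ⟨fun h => hc (h.eq_bot ▸ bot_le), ?_⟩
  intro x y hxy
  by_contra hcon
  push Not at hcon
  have hx : x < c := lt_of_le_of_ne (hxy ▸ le_sup_left) hcon.1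
  have hy : y < c := lt_of_le_of_ne (hxy ▸ le_sup_right) hcon.2
  exact hc (hxy ▸ sup_le (hmin x hx) (hmin y hy))

theorem exists_min_not {p : K → Prop} {x : K} (hx : ¬ p x) :
    ∃ c ≤ x, ¬ p c ∧ ∀ y < c, p y := by
  have hfin : {c | c ≤ x ∧ ¬ p c}.Finite := Set.toFinite _
  obtain ⟨c, hc⟩ := hfin.exists_minimal ⟨x, le_rfl, hx⟩
  refine ⟨c, hc.1.1, hc.1.2, ?_⟩
  intro y hy
  by_contra hpy
  exact absurd (hc.2 ⟨hy.le.trans hc.1.1, hpy⟩ hy.le) (not_le_of_gt hy)

theorem exists_supIrred_not_le {x t : K} (hx : ¬ x ≤ t) :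
    ∃ c ≤ x, SupIrred c ∧ ¬ c ≤ t ∧ star c ≤ t := by
  obtain ⟨c, hcx, hct, hmin⟩ := exists_min_not (p := fun y => y ≤ t) hx
  have hirr := supIrred_of_min hct hmin
  exact ⟨c, hcx, hirr, hct, hmin _ (star_lt hirr)⟩

theorem le_of_supIrred_le {a b : K} (h : ∀ j, SupIrred j → j ≤ a → j ≤ b) : a ≤ b := by
  by_contra hab
  obtain ⟨c, hca, hirr, hcb, -⟩ := exists_supIrred_not_le hab
  exact hcb (h c hirr hca)

/-- Refinement: if `j ≤ a ⊔ b` nontrivially, and every join-irreducible `c` below `a` or `b` on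
which `j` depends is below `w`, then `j ≤ w`. -/
theorem refine_le {j a b w : K} (h : j ≤ a ⊔ b) (ha : ¬ j ≤ a) (hb : ¬ j ≤ b)
    (hw : ∀ c, D j c → (c ≤ a ∨ c ≤ b) → c ≤ w) : j ≤ w := by
  by_contra hjw
  have hfin : {t | w ≤ t ∧ ¬ j ≤ t}.Finite := Set.toFinite _
  obtain ⟨t, ht⟩ := hfin.exists_maximal ⟨w, le_rfl, hjw⟩
  have hmax : ∀ u, t < u → j ≤ u := by
    intro u hu
    by_contra hju
    exact absurd (ht.2 ⟨ht.1.1.trans hu.le, hju⟩ hu.le) (not_le_of_gt hu)
  have hex : ∃ x, (x ≤ a ∨ x ≤ b) ∧ ¬ x ≤ t := by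
    by_contra hcon
    push Not at hcon
    exact ht.1.2 (h.trans (sup_le (hcon a (Or.inl le_rfl)) (hcon b (Or.inr le_rfl))))
  obtain ⟨x, hxab, hxt⟩ := hex
  obtain ⟨c, hcx, hirr, hct, hstar⟩ := exists_supIrred_not_le hxt
  have hcab : c ≤ a ∨ c ≤ b := hxab.imp hcx.trans hcx.trans
  have hj : j ≤ c ⊔ t := hmax _ (lt_of_le_of_ne le_sup_right
    (fun he => hct (he ▸ le_sup_left)))
  have hD : D j c := by
    refine ⟨hirr, ?_, t, hj, ?_⟩
    · rintro rfl
      exact hcab.elim ha hb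
    · rw [sup_eq_right.2 hstar]
      exact ht.1.2
  exact hct ((hw c hD hcab).trans ht.1.1)

end Basic

end Pool.Agent.MP_094405_al
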