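import Pool.Agent.MP_094405_al.Frame

/-!
# The embedding into the lattice of regular closed sets
-/

set_option autoImplicit false
set_option linter.unusedSectionVars false

namespace Pool.Agent.MP_094405_al

open Relation

section Sum

variable {K : Type} [Lattice K] [BoundedOrder K]

/-- The labelled relation of a disjoint union of frames. -/
inductive SR {perp : K → K} {J : Type} (F : J → Frame perp) :
    (Σ j, (F j).E) → (Σ j, (F j).E) → Set K → Prop
  | mk {j : J} {a b : (F j).E} {S : Set K} : (F j).R a b S → SR F ⟨j, a⟩ ⟨j, b⟩ S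

/-- The disjoint union of a finite family of frames. -/
def Frame.sum {perp : K → K} {J : Type} [Finite J] (F : J → Frame perp) : Frame perp where
  E := Σ j, (F j).E
  fin := by
    have := fun j => (F j).fin
    infer_instance
  R := SR F
  uniq := by
    rintro a b S T ⟨h⟩ h'
    cases h' with
    | mk h' => exact (F _).uniq h h'
  irr := by
    intro a S h
    cases h with
    | mk h => exact (F _).irr h
  uf := by
    rintro a b S ⟨h⟩
    exact (F _).uf h
  comp := by
    rintro a b c S T ⟨h⟩ h'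
    cases h' with
    | mk h' =>
      obtain ⟨U, hU, hU'⟩ := (F _).comp h h'
      exact ⟨U, SR.mk hU, hU'⟩
  req := by
    rintro a b S x y h hxy
    cases h with
    | @mk j a b S h =>
      refine tg_lift (fun σ => (⟨j, σ⟩ : Σ j, (F j).E)) ?_ ((F j).req x y h hxy)
      rintro u v ⟨T4, hT4, h5⟩
      exact ⟨T4, SR.mk hT4, h5⟩

end Sum

section Embed

theorem tcl_eq {E : Type} {a : E → E → Prop} (h : IsClosedRel a) : tcl a = a := by
  funext x y
  apply propext
  constructor
  · intro hxy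
    induction hxy with
    | single h1 => exact h1
    | tail _ h2 ih => exact h _ _ _ ih h2
  · exact TransGen.single

variable {K : Type} [Lattice K] [BoundedOrder K] [Finite K] {perp : K → K}

/-- The strict ordering of a frame. -/
def Frame.e (F : Frame perp) : F.E → F.E → Prop := fun a b => ∃ S, F.R a b S

/-- The subset of the ordering attached to an element of `K`. -/
def Frame.f (F : Frame perp) (x : K) : F.E → F.E → Prop := fun a b => ∃ S, F.R a b S ∧ x ∈ S

theorem Frame.strict (F : Frame perp) : IsStrictOrdering F.e := by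
  constructor
  · rintro x ⟨S, h⟩
    exact F.irr h
  · rintro x y z ⟨S, h⟩ ⟨T, h'⟩
    obtain ⟨U, hU, _⟩ := F.comp h h'
    exact ⟨U, hU⟩

theorem Frame.closed (F : Frame perp) (x : K) : IsClosedRel (F.f x) := by
  rintro a b c ⟨S, h, hS⟩ ⟨T, h', hT⟩
  obtain ⟨U, hU, hU'⟩ := F.comp h h'
  exact ⟨U, hU, hU' ⟨hS, hT⟩⟩

theorem Frame.f_perp (F : Frame perp) (x : K) :
    F.f (perp x) = fun p q => F.e p q ∧ ¬ F.f x p q := by
  funext p q
  apply propext
  constructor
  · rintro ⟨S, h, hS⟩
    refine ⟨⟨S, h⟩, ?_⟩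
    rintro ⟨T, h', hT⟩
    rw [← F.uniq h h'] at hT
    exact ((F.uf h).dual x).1 hS hT
  · rintro ⟨⟨S, h⟩, h'⟩
    exact ⟨S, h, ((F.uf h).dual x).2 (fun hx => h' ⟨S, h, hx⟩)⟩

theorem Frame.f_mono (F : Frame perp) {x y : K} (hxy : x ≤ y) {p q : F.E} (h : F.f x p q) :
    F.f y p q := by
  obtain ⟨S, h, hS⟩ := h
  exact ⟨S, h, (F.uf h).up hxy hS⟩

theorem Frame.open' (F : Frame perp) (x : K) : IsOpenRel F.e (F.f x) := by
  unfold IsOpenRel
  rw [← F.f_perp]
  exact F.closed _

theorem Frame.interior_eq (F : Frame perp) (x : K) : interior F.e (F.f x) = F.f x := by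
  funext p q
  apply propext
  constructor
  · rintro ⟨b, hb, _, h⟩
    exact hb _ _ h
  · intro h
    exact ⟨F.f x, fun _ _ h => h, F.open' x, h⟩

theorem Frame.f_sup (F : Frame perp) (x y : K) :
    F.f (x ⊔ y) = tcl (fun p q => F.f x p q ∨ F.f y p q) := by
  funext p q
  apply propext
  constructor
  · rintro ⟨S, h, hS⟩
    refine tg_lift id ?_ (F.req x y h hS)
    rintro u v ⟨T, hT, hx | hy⟩
    · exact Or.inl ⟨T, hT, hx⟩
    · exact Or.inr ⟨T, hT, hy⟩
  · intro h
    rw [← tcl_eq (F.closed (x ⊔ y))]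
    refine tg_lift id ?_ h
    rintro u v (h | h)
    · exact F.f_mono le_sup_left h
    · exact F.f_mono le_sup_right h

theorem Frame.interior_inter (hp : IsOrtho perp) (F : Frame perp) (x y : K) :
    interior F.e (fun p q => F.f x p q ∧ F.f y p q) = F.f (x ⊓ y) := by
  funext p q
  apply propext
  constructor
  · rintro ⟨b, hb, hopen, h⟩
    by_contra hcon
    have he : F.e p q := by
      obtain ⟨⟨S, hS, _⟩, _⟩ := hb _ _ h
      exact ⟨S, hS⟩
    have h1 : F.f (perp (x ⊓ y)) p q := by
      rw [F.f_perp]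
      exact ⟨he, hcon⟩
    rw [hp.perp_inf, F.f_sup] at h1
    have h2 : tcl (fun u v => F.e u v ∧ ¬ b u v) p q := by
      refine tg_lift id ?_ h1
      rintro u v (h | h)
      · rw [F.f_perp] at h
        exact ⟨h.1, fun hbuv => h.2 (hb _ _ hbuv).1⟩
      · rw [F.f_perp] at h
        exact ⟨h.1, fun hbuv => h.2 (hb _ _ hbuv).2⟩
    rw [tcl_eq hopen] at h2
    exact h2.2 h
  · intro h
    exact ⟨F.f (x ⊓ y), fun u v h => ⟨F.f_mono inf_le_left h, F.f_mono inf_le_right h⟩,
      F.open' _, h⟩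

theorem Frame.f_inf (hp : IsOrtho perp) (F : Frame perp) (x y : K) :
    F.f (x ⊓ y) = tcl (interior F.e (fun p q => F.f x p q ∧ F.f y p q)) := by
  rw [F.interior_inter hp, tcl_eq (F.closed _)]

theorem Frame.embedding (hp : IsOrtho perp) (F : Frame perp)
    (hsep : ∀ j : K, SupIrred j → ∃ a b S, F.R a b S ∧ j ∈ S ∧ star j ∉ S) :
    IsEmbeddingIntoReg perp F.e F.f where
  regular := by
    intro x
    constructor
    · rintro p q ⟨S, h, _⟩
      exact ⟨S, h⟩
    · rw [F.interior_eq, tcl_eq (F.closed x)]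
  injective := by
    have key : ∀ x y, F.f x = F.f y → x ≤ y := by
      intro x y hxy
      by_contra hcon
      obtain ⟨j, hjx, hj, hjy, hsj⟩ := exists_supIrred_not_le hcon
      have h1 : j ⊓ y = star j := le_antisymm (inf_le_star hjy) (le_inf (star_le j) hsj)
      have h2 : F.f j = F.f (star j) := by
        calc F.f j = F.f (j ⊓ x) := by rw [inf_eq_left.2 hjx]
          _ = F.f (j ⊓ y) := by rw [F.f_inf hp, F.f_inf hp, hxy]
          _ = F.f (star j) := by rw [h1]
      obtain ⟨a, b, S, hS, hjS, hsS⟩ := hsep j hj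
      have h3 : F.f j a b := ⟨S, hS, hjS⟩
      rw [h2] at h3
      obtain ⟨T, hT, hsT⟩ := h3
      rw [← F.uniq hS hT] at hsT
      exact hsS hsT
    intro x y h
    exact le_antisymm (key x y h) (key y x h.symm)
  map_sup := F.f_sup
  map_inf := F.f_inf hp
  map_perp := by
    intro x
    rw [← F.f_perp, tcl_eq (F.closed _)]

end Embed

section Main

variable {K : Type} [Lattice K] [BoundedOrder K] [Finite K] {perp : K → K} {N : K → ℕ}

theorem exists_sep (hp : IsOrtho perp) (hN : ∀ j c : K, D j c → N c < N j) {j : K}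
    (hj : SupIrred j) : ∃ (F : Frame perp) (a b : F.E) (S : Set K), F.R a b S ∧ j ∈ S ∧
      star j ∉ S := by
  by_cases hat : star j = ⊥
  · have hatom : IsAtom j := by
      refine ⟨hj.ne_bot, ?_⟩
      intro b hb
      exact le_bot_iff.1 (hat ▸ le_star hb)
    refine ⟨Frame.two hp hN hatom, false, true, UL j, ⟨rfl, rfl, rfl⟩, le_rfl, ?_⟩
    intro h
    exact absurd (le_antisymm h (star_le j)) (star_lt hj).ne'
  · have hpj : perp j ≠ ⊥ := by
      intro h
      have htop : j = ⊤ := by
        rw [← hp.invol j, h, hp.perp_bot]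
      have h1 : star j ⊔ perp (star j) = j := by
        rw [hp.sup_perp, htop]
      rcases hj.2 h1 with h2 | h2
      · exact (star_lt hj).ne h2
      · apply hat
        rw [← hp.invol (star j), h2, htop, hp.perp_top]
    obtain ⟨l, hl, hlj⟩ := (eq_bot_or_exists_atom_le (perp j)).resolve_left hpj
    have hlj' : ¬ l ≤ j := fun h => atom_not_both hp hl h hlj
    obtain ⟨F, bot, top, hF, _⟩ := exists_frame hp hN _ j l rfl hj hl hlj'
    refine ⟨F, bot, top, _, hF, Or.inl le_rfl, ?_⟩
    rintro (h | ⟨h, _⟩)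
    · exact absurd (le_antisymm h (star_le j)) (star_lt hj).ne'
    · exact hlj' (h.trans (star_le j))

theorem main_embedding (hp : IsOrtho perp) (hK : IsBoundedImageOfFree K) :
    ∃ (E : Type) (_ : Finite E) (e : E → E → Prop), IsStrictOrdering e ∧
      ∃ f : K → E → E → Prop, IsEmbeddingIntoReg perp e f := by
  obtain ⟨N, hN⟩ := exists_dep_rank hK
  let J := {j : K // SupIrred j}
  have hex : ∀ j : J, ∃ (F : Frame perp) (a b : F.E) (S : Set K), F.R a b S ∧ j.1 ∈ S ∧
      star j.1 ∉ S := fun j => exists_sep hp hN j.2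
  choose F a b S hF using hex
  refine ⟨(Frame.sum F).E, (Frame.sum F).fin, (Frame.sum F).e, (Frame.sum F).strict,
    (Frame.sum F).f, Frame.embedding hp _ ?_⟩
  intro j hj
  exact ⟨⟨⟨j, hj⟩, a ⟨j, hj⟩⟩, ⟨⟨j, hj⟩, b ⟨j, hj⟩⟩, S ⟨j, hj⟩, SR.mk (hF ⟨j, hj⟩).1,
    (hF ⟨j, hj⟩).2⟩

end Main

end Pool.Agent.MP_094405_al
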