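import Pool.Agent.MP_094405_al.Tow

/-!
# Semidistributivity, the involution on join-irreducibles, and the rank
-/

set_option autoImplicit false
set_option linter.unusedSectionVars false

namespace Pool.Agent.MP_094405_al

variable {K : Type} [Lattice K] [BoundedOrder K] {perp : K → K}

namespace IsOrtho

variable (hp : IsOrtho perp)
include hp

theorem le_iff {x y : K} : perp y ≤ perp x ↔ x ≤ y :=
  ⟨fun h => by have := hp.anti h; rwa [hp.invol, hp.invol] at this, hp.anti⟩

theorem le_perp {x y : K} : x ≤ perp y ↔ y ≤ perp x := by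
  constructor
  · intro h
    have := hp.anti h
    rwa [hp.invol] at this
  · intro h
    have := hp.anti h
    rwa [hp.invol] at this

theorem perp_le {x y : K} : perp x ≤ y ↔ perp y ≤ x := by
  constructor
  · intro h
    have := hp.anti h
    rwa [hp.invol] at this
  · intro h
    have := hp.anti h
    rwa [hp.invol] at this

theorem perp_sup (x y : K) : perp (x ⊔ y) = perp x ⊓ perp y := by
  apply le_antisymm
  · exact le_inf (hp.anti le_sup_left) (hp.anti le_sup_right)
  · rw [hp.le_perp]
    exact sup_le (hp.le_perp.1 inf_le_left) (hp.le_perp.1 inf_le_right)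

theorem perp_inf (x y : K) : perp (x ⊓ y) = perp x ⊔ perp y := by
  have := hp.perp_sup (perp x) (perp y)
  rw [hp.invol, hp.invol] at this
  rw [← this, hp.invol]

theorem perp_inj {x y : K} (h : perp x = perp y) : x = y := by
  rw [← hp.invol x, h, hp.invol]

theorem perp_bot : perp ⊥ = ⊤ := by
  apply top_unique
  rw [hp.le_perp]
  exact bot_le

theorem perp_top : perp ⊤ = ⊥ := by
  rw [← hp.perp_bot, hp.invol]

theorem sup_perp (x : K) : x ⊔ perp x = ⊤ := by
  have := hp.perp_inf x (perp x)
  rw [hp.inf_perp, hp.perp_bot, hp.invol] at this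
  rw [sup_comm, ← this]

theorem eq_bot_of_le {x y : K} (h : x ≤ y) (h' : x ≤ perp y) : x = ⊥ := by
  apply bot_unique
  rw [← hp.inf_perp y]
  exact le_inf h h'

end IsOrtho

section Atom

theorem star_atom [Finite K] {l : K} (hl : IsAtom l) : star l = ⊥ := by
  by_contra hne
  have hsup : SupIrred l := by
    refine ⟨fun h => hl.1 h.eq_bot, ?_⟩
    intro b c hbc
    rcases (hl.le_iff.1 (hbc ▸ le_sup_left : b ≤ l)) with hb | hb
    · right
      rw [hb, bot_sup_eq] at hbc
      exact hbc
    · exact Or.inl hb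
  exact hne (hl.2 _ (star_lt hsup))

theorem supIrred_atom {l : K} (hl : IsAtom l) : SupIrred l := by
  refine ⟨fun h => hl.1 h.eq_bot, ?_⟩
  intro b c hbc
  rcases (hl.le_iff.1 (hbc ▸ le_sup_left : b ≤ l)) with hb | hb
  · right
    rw [hb, bot_sup_eq] at hbc
    exact hbc
  · exact Or.inl hb

end Atom

section Semi

variable [Finite K] {N : K → ℕ}

theorem sdJoin (hN : ∀ j c : K, D j c → N c < N j) {x y z : K} (h : x ⊔ y = x ⊔ z) :
    x ⊔ (y ⊓ z) = x ⊔ y := by
  apply le_antisymm (sup_le_sup_left inf_le_left _)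
  apply le_of_supIrred_le
  have main : ∀ n, ∀ j, N j = n → SupIrred j → j ≤ x ⊔ y → j ≤ x ⊔ (y ⊓ z) := by
    intro n
    induction n using Nat.strong_induction_on with
    | _ n ih =>
      intro j hn hj hjxy
      by_cases hjx : j ≤ x
      · exact hjx.trans le_sup_left
      by_cases hjy : j ≤ y
      · by_cases hjz : j ≤ z
        · exact (le_inf hjy hjz).trans le_sup_right
        · refine refine_le (h ▸ hjxy) hjx hjz ?_
          intro c hc hcc
          rcases hcc with hcx | hcz
          · exact hcx.trans le_sup_left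
          · exact ih (N c) (hn ▸ hN j c hc) c rfl hc.1 (h ▸ hcz.trans le_sup_right)
      · refine refine_le hjxy hjx hjy ?_
        intro c hc hcc
        rcases hcc with hcx | hcy
        · exact hcx.trans le_sup_left
        · exact ih (N c) (hn ▸ hN j c hc) c rfl hc.1 (hcy.trans le_sup_right)
  intro j hj hjxy
  exact main _ j rfl hj hjxy

variable (hp : IsOrtho perp)
include hp

theorem sdMeet (hN : ∀ j c : K, D j c → N c < N j) {x y z : K} (h : x ⊓ y = x ⊓ z) :
    x ⊓ (y ⊔ z) = x ⊓ y := by
  have h1 : perp x ⊔ perp y = perp x ⊔ perp z := by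
    rw [← hp.perp_inf, ← hp.perp_inf, h]
  have h2 := sdJoin hN h1
  apply hp.perp_inj
  rw [hp.perp_inf, hp.perp_sup, hp.perp_inf, h2]

theorem not_le_star_sup (hN : ∀ j c : K, D j c → N c < N j) {j x y : K} (hj : SupIrred j)
    (h1 : ¬ j ≤ star j ⊔ x) (h2 : ¬ j ≤ star j ⊔ y) : ¬ j ≤ star j ⊔ (x ⊔ y) := by
  intro hcon
  have e1 : j ⊓ (star j ⊔ x) = star j :=
    le_antisymm (inf_le_star h1) (le_inf (star_le j) le_sup_left)
  have e2 : j ⊓ (star j ⊔ y) = star j :=
    le_antisymm (inf_le_star h2) (le_inf (star_le j) le_sup_left)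
  have e3 := sdMeet hp hN (e1.trans e2.symm)
  rw [e1] at e3
  have e4 : star j ⊔ (x ⊔ y) ≤ (star j ⊔ x) ⊔ (star j ⊔ y) :=
    sup_le (le_sup_left.trans le_sup_left) (sup_le (le_sup_right.trans le_sup_left)
      (le_sup_right.trans le_sup_right))
  rw [inf_eq_left.2 (hcon.trans e4)] at e3
  exact (star_lt hj).ne e3.symm

end Semi

section Kap

variable [Finite K] {N : K → ℕ} (hp : IsOrtho perp) (hN : ∀ j c : K, D j c → N c < N j)

/-- The largest element `x` with `¬ j ≤ star j ⊔ x`. -/
noncomputable def kap (j : K) : K := (Set.toFinite {x | ¬ j ≤ star j ⊔ x}).toFinset.sup id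

/-- The involution on join-irreducible elements. -/
noncomputable def sig (perp : K → K) (j : K) : K := perp (kap j)

include hp hN

theorem not_le_kap {j : K} (hj : SupIrred j) : ¬ j ≤ star j ⊔ kap j := by
  unfold kap
  apply Finset.sup_induction (p := fun x => ¬ j ≤ star j ⊔ x)
  · rw [sup_bot_eq]
    exact (star_lt hj).not_ge
  · intro x hx y hy
    exact not_le_star_sup hp hN hj hx hy
  · intro x hx
    simpa using hx

theorem le_kap_iff {j x : K} (hj : SupIrred j) : x ≤ kap j ↔ ¬ j ≤ star j ⊔ x := by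
  constructor
  · intro h hcon
    exact not_le_kap hp hN hj (hcon.trans (sup_le_sup_left h _))
  · intro h
    exact Finset.le_sup (f := id) (by simpa using h)

theorem star_le_kap {j : K} (hj : SupIrred j) : star j ≤ kap j := by
  rw [le_kap_iff hp hN hj, sup_idem]
  exact (star_lt hj).not_ge

theorem not_le_kap' {j : K} (hj : SupIrred j) : ¬ j ≤ kap j := by
  rw [le_kap_iff hp hN hj, not_not]
  exact le_sup_right

theorem le_of_not_le_kap {j t : K} (hj : SupIrred j) (h : star j ≤ t) (h' : ¬ t ≤ kap j) :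
    j ≤ t := by
  rw [le_kap_iff hp hN hj, not_not, sup_eq_right.2 h] at h'
  exact h'

theorem supIrred_sig {j : K} (hj : SupIrred j) : SupIrred (sig perp j) := by
  unfold sig
  constructor
  · intro h
    have h1 : perp (kap j) = ⊥ := h.eq_bot
    have h2 : kap j = ⊤ := by
      rw [← hp.invol (kap j), h1, hp.perp_bot]
    exact not_le_kap' hp hN hj (h2 ▸ le_top)
  · intro b c hbc
    by_contra hcon
    push Not at hcon
    have key : ∀ b, b ≤ perp (kap j) → b ≠ perp (kap j) → j ≤ perp b := by
      intro b hb hne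
      have h1 : kap j ≤ perp b := hp.le_perp.1 hb
      refine le_of_not_le_kap hp hN hj ((star_le_kap hp hN hj).trans h1) ?_
      intro h2
      exact hne (by rw [le_antisymm h1 h2, hp.invol])
    have h1 := key b (hbc ▸ le_sup_left) hcon.1
    have h2 := key c (hbc ▸ le_sup_right) hcon.2
    have h3 : j ≤ perp (b ⊔ c) := by
      rw [hp.perp_sup]
      exact le_inf h1 h2
    rw [hbc, hp.invol] at h3
    exact not_le_kap' hp hN hj h3

theorem star_sig {j : K} (hj : SupIrred j) : star (sig perp j) = perp (j ⊔ kap j) := by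
  apply le_antisymm
  · have h1 : star (sig perp j) < sig perp j := star_lt (supIrred_sig hp hN hj)
    have h2 : kap j ≤ perp (star (sig perp j)) := hp.le_perp.1 h1.le
    rw [hp.le_perp]
    refine sup_le ?_ h2
    refine le_of_not_le_kap hp hN hj ((star_le_kap hp hN hj).trans h2) ?_
    intro h3
    have h4 : kap j = perp (star (sig perp j)) := le_antisymm h2 h3
    apply h1.ne
    have h5 : sig perp j = perp (perp (star (sig perp j))) := by
      rw [← h4]
      rfl
    rw [hp.invol] at h5
    exact h5.symm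
  · apply le_star
    refine lt_of_le_of_ne (hp.anti le_sup_right) ?_
    intro h
    have := hp.perp_inj h
    exact not_le_kap' hp hN hj (this ▸ le_sup_left)

theorem kap_sig {j : K} (hj : SupIrred j) : kap (sig perp j) = perp j := by
  apply eq_of_forall_le_iff
  intro x
  rw [le_kap_iff hp hN (supIrred_sig hp hN hj), star_sig hp hN hj]
  have h1 : sig perp j ≤ perp (j ⊔ kap j) ⊔ x ↔ (j ⊔ kap j) ⊓ perp x ≤ kap j := by
    unfold sig
    rw [hp.perp_le, hp.perp_sup, hp.invol]
  rw [h1, hp.le_perp]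
  constructor
  · intro h
    have hq : kap j ⊔ ((j ⊔ kap j) ⊓ perp x) = kap j ⊔ j := by
      apply le_antisymm
      · exact sup_le le_sup_left (inf_le_left.trans (sup_comm _ _).le)
      · refine sup_le le_sup_left ?_
        refine le_of_not_le_kap hp hN hj ((star_le_kap hp hN hj).trans le_sup_left) ?_
        intro h2
        exact h (le_sup_right.trans h2)
    have hsd := sdJoin hN hq
    by_contra hcon
    have hjq : ¬ j ≤ (j ⊔ kap j) ⊓ perp x := fun h3 => hcon (h3.trans inf_le_right)
    have h4 : ((j ⊔ kap j) ⊓ perp x) ⊓ j ≤ kap j := by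
      rw [inf_comm]
      exact (inf_le_star hjq).trans (star_le_kap hp hN hj)
    rw [sup_eq_left.2 h4, hq] at hsd
    exact not_le_kap' hp hN hj (hsd ▸ le_sup_right)
  · intro h h2
    exact not_le_kap' hp hN hj ((le_inf le_sup_left h).trans h2)

theorem sig_sig {j : K} (hj : SupIrred j) : sig perp (sig perp j) = j := by
  have := kap_sig hp hN hj
  unfold sig at this ⊢
  rw [this, hp.invol]

/-! ### The rank -/

omit hp in
theorem cg_sup {U : Set K} (hU : ∀ j ∈ U, ∀ c, D j c → c ∈ U) {x y : K}
    (h : ∀ k ∈ U, (k ≤ x ↔ k ≤ y)) (z : K) : ∀ k ∈ U, (k ≤ x ⊔ z ↔ k ≤ y ⊔ z) := by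
  have key : ∀ x y : K, (∀ k ∈ U, (k ≤ x → k ≤ y)) → ∀ k ∈ U, k ≤ x ⊔ z → k ≤ y ⊔ z := by
    intro x y h k hk hkx
    by_cases h1 : k ≤ x
    · exact (h k hk h1).trans le_sup_left
    by_cases h2 : k ≤ z
    · exact h2.trans le_sup_right
    refine refine_le hkx h1 h2 ?_
    intro c hc hcc
    rcases hcc with hcx | hcz
    · exact (h c (hU k hk c hc) hcx).trans le_sup_left
    · exact hcz.trans le_sup_right
  intro k hk
  exact ⟨key x y (fun k hk => (h k hk).1) k hk, key y x (fun k hk => (h k hk).2) k hk⟩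

theorem sig_mem {U : Set K} (hU : ∀ j ∈ U, ∀ c, D j c → c ∈ U) (hUi : ∀ j ∈ U, SupIrred j)
    {j c' : K} (hj : j ∈ U) (hD : D (sig perp j) c') : sig perp c' ∈ U := by
  obtain ⟨hc', hne, t, ht, ht'⟩ := hD
  set c := sig perp c' with hc
  have hci : SupIrred c := supIrred_sig hp hN hc'
  have hcc : c' = sig perp c := (sig_sig hp hN hc').symm
  have hji := hUi j hj
  by_contra hcU
  -- `c` is collapsed
  have h1 : ∀ k ∈ U, (k ≤ c ↔ k ≤ star c) := by
    intro k hk
    constructor
    · intro h
      refine le_star (lt_of_le_of_ne h ?_)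
      rintro rfl
      exact hcU hk
    · intro h
      exact h.trans (star_le c)
  have h2 := cg_sup hN hU h1 (kap c)
  rw [sup_eq_right.2 (star_le_kap hp hN hci)] at h2
  -- `q ≡ kap c ⊓ perp t ≤ kap j`
  rw [hcc] at ht ht'
  rw [star_sig hp hN hci] at ht'
  have h3 : kap c ⊓ perp t ≤ kap j := by
    unfold sig at ht
    rw [hp.perp_le, hp.perp_sup, hp.invol] at ht
    exact ht
  have h4 : ¬ (c ⊔ kap c) ⊓ perp t ≤ kap j := by
    unfold sig at ht'
    rw [hp.perp_le, hp.perp_sup, hp.invol] at ht'
    exact ht'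
  have h5 : ∀ k ∈ U, (k ≤ (c ⊔ kap c) ⊓ perp t ↔ k ≤ kap c ⊓ perp t) := by
    intro k hk
    rw [le_inf_iff, le_inf_iff, h2 k hk]
  have h6 := cg_sup hN hU h5 (kap j) j hj
  rw [sup_eq_right.2 h3] at h6
  apply not_le_kap' hp hN hji
  rw [← h6]
  refine le_of_not_le_kap hp hN hji ((star_le_kap hp hN hji).trans le_sup_right) ?_
  intro h7
  exact h4 (le_sup_left.trans h7)

/-- The set of join-irreducibles on which `j` depends (transitively, including `j`). -/
def T (j : K) : Set K := {c | Relation.ReflTransGen D j c}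

/-- The rank of `j`. -/
noncomputable def rk (j : K) : ℕ := (T j).ncard

omit hp hN in
theorem T_closed (j : K) : ∀ a ∈ T j, ∀ c, D a c → c ∈ T j :=
  fun _ ha _ hc => Relation.ReflTransGen.tail ha hc

omit hp hN in
theorem T_irred {j : K} (hj : SupIrred j) : ∀ a ∈ T j, SupIrred a := by
  intro a ha
  induction ha with
  | refl => exact hj
  | tail _ h _ => exact h.1

omit hp in
theorem rk_lt {j c : K} (h : D j c) : rk c < rk j := by
  apply Set.ncard_lt_ncard ?_ (Set.toFinite _)
  constructor
  · intro a ha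
    exact Relation.ReflTransGen.head h ha
  · intro hcon
    have h1 : j ∈ T c := hcon Relation.ReflTransGen.refl
    have h2 : ∀ a, a ∈ T c → N a ≤ N c := by
      intro a ha
      induction ha with
      | refl => exact le_rfl
      | tail _ h ih => exact (hN _ _ h).le.trans ih
    exact absurd (h2 j h1) (not_le_of_gt (hN _ _ h))

theorem rk_sig_le {j : K} (hj : SupIrred j) : rk j ≤ rk (sig perp j) := by
  have hsj := supIrred_sig hp hN hj
  have hW : ∀ a ∈ T j, SupIrred a ∧ sig perp a ∈ T (sig perp j) := by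
    intro a ha
    induction ha with
    | refl => exact ⟨hj, Relation.ReflTransGen.refl⟩
    | @tail b c _ hbc ih =>
      refine ⟨hbc.1, ?_⟩
      apply sig_mem hp hN (T_closed (sig perp j)) (T_irred hsj) ih.2
      rw [sig_sig hp hN ih.1]
      exact hbc
  apply Set.ncard_le_ncard_of_injOn (sig perp) (fun a ha => (hW a ha).2) ?_ (Set.toFinite _)
  intro a ha b hb hab
  rw [← sig_sig hp hN (hW a ha).1, ← sig_sig hp hN (hW b hb).1, hab]

theorem rk_sig {j : K} (hj : SupIrred j) : rk (sig perp j) = rk j := by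
  apply le_antisymm
  · have := rk_sig_le hp hN (supIrred_sig hp hN hj)
    rwa [sig_sig hp hN hj] at this
  · exact rk_sig_le hp hN hj

/-! ### Atoms -/

theorem atom_prime {l x y : K} (hl : IsAtom l) (h : l ≤ x ⊔ y) : l ≤ x ∨ l ≤ y := by
  by_contra hcon
  push Not at hcon
  have hs := star_atom hl
  have h1 : ∀ x, x ≤ kap l ↔ ¬ l ≤ x := by
    intro x
    rw [le_kap_iff hp hN (supIrred_atom hl), hs, bot_sup_eq]
  exact (h1 _).1 (sup_le ((h1 x).2 hcon.1) ((h1 y).2 hcon.2)) h

theorem atom_or {l : K} (hl : IsAtom l) (x : K) : l ≤ x ∨ l ≤ perp x := by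
  apply atom_prime hp hN hl
  rw [hp.sup_perp]
  exact le_top

omit hN in
theorem atom_not_both {l : K} (hl : IsAtom l) {x : K} (h : l ≤ x) : ¬ l ≤ perp x := by
  intro h'
  exact hl.1 (hp.eq_bot_of_le h h')

theorem le_star_sup_refine {j d w : K} (h : j ≤ star j ⊔ d) (hj : SupIrred j)
    (hw : ∀ c, SupIrred c → c < j → rk c < rk j → c ≤ w) : j ≤ w ⊔ d := by
  by_cases h1 : j ≤ d
  · exact h1.trans le_sup_right
  refine refine_le h (star_lt hj).not_ge h1 ?_
  intro c hc hcc
  rcases hcc with h2 | h2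
  · exact (hw c hc.1 (lt_of_le_of_lt h2 (star_lt hj)) (rk_lt hN hc)).trans le_sup_left
  · exact h2.trans le_sup_right

end Kap

end Pool.Agent.MP_094405_al
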