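import Pool.Agent.MP_094405_al.Ortho

/-!
# Spines

A spine is a finite strictly ordered set whose pairs `a < b` are labelled by elements of a
lattice, monotonically in `b` and subadditively, such that every join cover of a label is
realised by a chain.
-/

set_option autoImplicit false
set_option linter.unusedSectionVars false

namespace Pool.Agent.MP_094405_al

open Relation

theorem tg_lift {α β : Type} {r : α → α → Prop} {p : β → β → Prop} (f : α → β)
    (h : ∀ a b, r a b → p (f a) (f b)) {a b : α} (hab : TransGen r a b) :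
    TransGen p (f a) (f b) := by
  induction hab with
  | single hac => exact TransGen.single (h _ _ hac)
  | tail _ hbc ih => exact TransGen.tail ih (h _ _ hbc)

/-- Spines with labels in the nonzero part of the ideal below `m`; `R a b x` says that `a < b`
and that the label of the pair is `x`. -/
structure Spine {K : Type} [Lattice K] [BoundedOrder K] (m : K) where
  E : Type
  fin : Finite E
  R : E → E → K → Prop
  bot : E
  top : E
  uniq : ∀ {a b : E} {x y : K}, R a b x → R a b y → x = y
  irr : ∀ {a : E} {x : K}, ¬ R a a x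
  comp : ∀ {a b c : E} {x y : K}, R a b x → R b c y → ∃ z, R a c z ∧ x ≤ z ∧ z ≤ x ⊔ y
  ne : ∀ {a b : E} {x : K}, R a b x → x ≠ ⊥
  le : ∀ {a b : E} {x : K}, R a b x → x ≤ m
  top_max : ∀ {a : E} {x : K}, ¬ R top a x
  bot_min : ∀ {a : E} {x : K}, ¬ R a bot x
  req : ∀ {a b : E} {x : K} (s s' : K), R a b x → s ≤ m → s' ≤ m → x ≤ s ⊔ s' →
    TransGen (fun p q => ∃ y, R p q y ∧ (y ≤ s ∨ y ≤ s')) a b

namespace Spine

variable {K : Type} [Lattice K] [BoundedOrder K] {m : K}

/-- The label from `σ` to the top, or `⊥` if `σ` is the top. -/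
def RT (S : Spine m) (σ : S.E) (x : K) : Prop := (σ = S.top ∧ x = ⊥) ∨ S.R σ S.top x

theorem RT.uniq {S : Spine m} {σ : S.E} {x y : K} (h : S.RT σ x) (h' : S.RT σ y) : x = y := by
  rcases h with ⟨rfl, rfl⟩ | h <;> rcases h' with ⟨h1, rfl⟩ | h'
  · rfl
  · exact absurd h' S.top_max
  · subst h1
    exact absurd h S.top_max
  · exact S.uniq h h'

theorem RT.le {S : Spine m} {σ : S.E} {x : K} (h : S.RT σ x) : x ≤ m := by
  rcases h with ⟨_, rfl⟩ | h
  · exact bot_le
  · exact S.le h

theorem rt_top (S : Spine m) : S.RT S.top ⊥ := Or.inl ⟨rfl, rfl⟩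

theorem RT.eq_bot {S : Spine m} {x : K} (h : S.RT S.top x) : x = ⊥ := h.uniq S.rt_top

/-- Composition of a label with a label to the top. -/
theorem RT.comp {S : Spine m} {σ σ' : S.E} {x y : K} (h : S.R σ σ' x) (h' : S.RT σ' y) :
    ∃ z, S.R σ S.top z ∧ x ≤ z ∧ z ≤ x ⊔ y := by
  rcases h' with ⟨rfl, rfl⟩ | h'
  · exact ⟨x, h, le_rfl, le_sup_left⟩
  · exact S.comp h h'

/-- The spine with two points. -/
def two (c : K) (hc : c ≠ ⊥) (hcm : c ≤ m)
    (hreq : ∀ s s' : K, s ≤ m → s' ≤ m → c ≤ s ⊔ s' → c ≤ s ∨ c ≤ s') : Spine m where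
  E := Bool
  fin := inferInstance
  R := fun a b x => a = false ∧ b = true ∧ x = c
  bot := false
  top := true
  uniq := by
    rintro a b x y ⟨_, _, rfl⟩ ⟨_, _, rfl⟩
    rfl
  irr := by
    rintro a x ⟨h1, h2, _⟩
    rw [h1] at h2
    exact Bool.false_ne_true h2
  comp := by
    rintro a b c x y ⟨_, h2, _⟩ ⟨h3, _, _⟩
    rw [h2] at h3
    exact absurd h3.symm Bool.false_ne_true
  ne := by
    rintro a b x ⟨_, _, rfl⟩
    exact hc
  le := by
    rintro a b x ⟨_, _, rfl⟩
    exact hcm
  top_max := by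
    rintro a x ⟨h, _, _⟩
    exact Bool.false_ne_true h.symm
  bot_min := by
    rintro a x ⟨_, h, _⟩
    exact Bool.false_ne_true h
  req := by
    rintro a b x s s' ⟨rfl, rfl, rfl⟩ hs hs' h
    exact TransGen.single ⟨_, ⟨rfl, rfl, rfl⟩, hreq s s' hs hs' h⟩

end Spine

/-! ### The main gluing -/

/-- The points of the glued spine. -/
inductive GPt (A : Type) {V : Type} (B : V → Type) : Type
  | z : GPt A B
  | w : GPt A B
  | pt (v : V) (σ : A) (ρ : B v) : GPt A B

/-- An injection of `GPt` into an evidently finite type. -/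
def GPt.toOpt {A V : Type} {B : V → Type} : GPt A B → Option (Option (Σ v, A × B v))
  | .z => none
  | .w => some none
  | .pt v σ ρ => some (some ⟨v, σ, ρ⟩)

theorem GPt.toOpt_injective {A V : Type} {B : V → Type} :
    Function.Injective (GPt.toOpt : GPt A B → _) := by
  intro a b h
  cases a <;> cases b <;> simp only [GPt.toOpt, Option.some.injEq, Sigma.mk.injEq,
    reduceCtorEq] at h ⊢
  obtain ⟨rfl, h⟩ := h
  have := eq_of_heq h
  rw [Prod.mk.injEq] at this
  rw [this.1, this.2]

theorem GPt.finite {A V : Type} {B : V → Type} [Finite A] [Finite V] [∀ v, Finite (B v)] :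
    Finite (GPt A B) :=
  Finite.of_injective _ GPt.toOpt_injective

section Glue

variable {K : Type} [Lattice K] [BoundedOrder K] {m : K}

/-- The labelled relation of the glued spine. -/
inductive GR (S : Spine m) {V : Type} (F : V → Spine m) (c : K) :
    GPt S.E (fun v => (F v).E) → GPt S.E (fun v => (F v).E) → K → Prop
  | zw : GR S F c .z .w c
  | zp {v : V} {σ : S.E} {ρ : (F v).E} {x : K} : S.R S.bot σ x → GR S F c .z (.pt v σ ρ) x
  | pw {v : V} {σ : S.E} {ρ : (F v).E} {x y : K} : S.RT σ x → (F v).R ρ (F v).top y →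
      GR S F c (.pt v σ ρ) .w (x ⊔ y)
  | same {v : V} {σ σ' : S.E} {ρ : (F v).E} {x : K} : S.R σ σ' x →
      GR S F c (.pt v σ ρ) (.pt v σ' ρ) x
  | jump {v : V} {σ : S.E} {ρ ρ' : (F v).E} {x y : K} : S.RT σ x → (F v).R ρ ρ' y →
      GR S F c (.pt v σ ρ) (.pt v S.top ρ') (x ⊔ y)

/-- The glued spine. -/
def glue (S : Spine m) {V : Type} [Finite V] (F : V → Spine m) (c x1 : K)
    (hx1 : S.R S.bot S.top x1) (hx1c : x1 ≤ c) (hcm : c ≤ m)
    (hF : ∀ v ρ y, (F v).R ρ (F v).top y → c ≤ x1 ⊔ y)
    (hreq : ∀ s s' : K, s ≤ m → s' ≤ m → c ≤ s ⊔ s' → c ≤ s ∨ c ≤ s' ∨ ∃ v,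
      TransGen (fun p q => ∃ y, (F v).R p q y ∧ (y ≤ s ∨ y ≤ s')) (F v).bot (F v).top) :
    Spine m where
  E := GPt S.E (fun v => (F v).E)
  fin := by
    have := S.fin
    have := fun v => (F v).fin
    exact GPt.finite
  R := GR S F c
  bot := .z
  top := .w
  uniq := by
    intro a b x y h h'
    cases h with
    | zw => cases h' with
      | zw => rfl
    | zp h1 => cases h' with
      | zp h2 => exact S.uniq h1 h2
    | pw h1 h2 => cases h' with
      | pw h3 h4 => rw [h1.uniq h3, (F _).uniq h2 h4]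
    | same h1 => cases h' with
      | same h2 => exact S.uniq h1 h2
      | jump h2 h3 => exact absurd h3 (F _).irr
    | jump h1 h2 => cases h' with
      | same h3 => exact absurd h2 (F _).irr
      | jump h3 h4 => rw [h1.uniq h3, (F _).uniq h2 h4]
  irr := by
    intro a x h
    cases h with
    | same h => exact S.irr h
    | jump h1 h2 => exact (F _).irr h2
  comp := by
    intro a b c' x y h h'
    cases h with
    | zw => cases h'
    | @zp v σ ρ x h1 => cases h' with
      | @pw _ _ _ x' y' h2 h3 =>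
        obtain ⟨u, hu, hu1, hu2⟩ := h2.comp h1
        have e := S.uniq hu hx1
        subst e
        refine ⟨c, GR.zw, hu1.trans hx1c, (hF _ _ _ h3).trans ?_⟩
        rw [← sup_assoc]
        exact sup_le_sup_right hu2 _
      | same h2 =>
        obtain ⟨u, hu, hu1, hu2⟩ := S.comp h1 h2
        exact ⟨u, GR.zp hu, hu1, hu2⟩
      | @jump _ _ _ ρ' x' y' h2 h3 =>
        obtain ⟨u, hu, hu1, hu2⟩ := h2.comp h1
        refine ⟨u, GR.zp hu, hu1, hu2.trans ?_⟩
        rw [← sup_assoc]
        exact le_sup_left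
    | pw h1 h2 => cases h'
    | @same v σ σ' ρ x h1 => cases h' with
      | @pw _ _ _ x' y' h2 h3 =>
        obtain ⟨u, hu, hu1, hu2⟩ := h2.comp h1
        refine ⟨u ⊔ y', GR.pw (Or.inr hu) h3, hu1.trans le_sup_left, ?_⟩
        rw [← sup_assoc]
        exact sup_le_sup_right hu2 _
      | same h2 =>
        obtain ⟨u, hu, hu1, hu2⟩ := S.comp h1 h2
        exact ⟨u, GR.same hu, hu1, hu2⟩
      | @jump _ _ _ ρ' x' y' h2 h3 =>
        obtain ⟨u, hu, hu1, hu2⟩ := h2.comp h1
        refine ⟨u ⊔ y', GR.jump (Or.inr hu) h3, hu1.trans le_sup_left, ?_⟩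
        rw [← sup_assoc]
        exact sup_le_sup_right hu2 _
    | @jump v σ ρ ρ' x y0 h1 h2 => cases h' with
      | @pw _ _ _ x' y' h3 h4 =>
        have e := h3.eq_bot
        subst e
        obtain ⟨u, hu, hu1, hu2⟩ := (F _).comp h2 h4
        refine ⟨x ⊔ u, GR.pw h1 hu, sup_le_sup_left hu1 _, ?_⟩
        rw [bot_sup_eq, sup_assoc]
        exact sup_le_sup_left hu2 _
      | same h3 => exact absurd h3 S.top_max
      | @jump _ _ _ ρ'' x' y' h3 h4 =>
        have e := h3.eq_bot
        subst e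
        obtain ⟨u, hu, hu1, hu2⟩ := (F _).comp h2 h4
        refine ⟨x ⊔ u, GR.jump h1 hu, sup_le_sup_left hu1 _, ?_⟩
        rw [bot_sup_eq, sup_assoc]
        exact sup_le_sup_left hu2 _
  ne := by
    intro a b x h
    have key : ∀ x y : K, y ≠ ⊥ → x ⊔ y ≠ ⊥ := by
      intro x y hy he
      exact hy (sup_eq_bot_iff.1 he).2
    cases h with
    | zw =>
      intro he
      rw [he] at hx1c
      exact S.ne hx1 (le_bot_iff.1 hx1c)
    | zp h => exact S.ne h
    | pw _ h => exact key _ _ ((F _).ne h)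
    | same h => exact S.ne h
    | jump _ h => exact key _ _ ((F _).ne h)
  le := by
    intro a b x h
    cases h with
    | zw => exact hcm
    | zp h => exact S.le h
    | pw h1 h2 => exact sup_le h1.le ((F _).le h2)
    | same h => exact S.le h
    | jump h1 h2 => exact sup_le h1.le ((F _).le h2)
  top_max := by
    intro a x h
    cases h
  bot_min := by
    intro a x h
    cases h
  req := by
    classical
    intro a b x s s' h hs hs' hx
    set r : GPt S.E (fun v => (F v).E) → GPt S.E (fun v => (F v).E) → Prop :=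
      fun p q => ∃ y, GR S F c p q y ∧ (y ≤ s ∨ y ≤ s') with hr
    -- paths in `S`, starting from `z`
    have hS0 : ∀ (v : V) (ρ : (F v).E) (σ : S.E) (x : K), S.R S.bot σ x → x ≤ s ⊔ s' →
        TransGen r .z (.pt v σ ρ) := by
      intro v ρ σ x h1 h2
      let f : S.E → GPt S.E (fun v => (F v).E) := fun τ => if τ = S.bot then .z else .pt v τ ρ
      have h3 : TransGen r (f S.bot) (f σ) := by
        refine tg_lift f ?_ (S.req s s' h1 hs hs' h2)
        rintro p q ⟨y, hy, hys⟩
        have hq : q ≠ S.bot := by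
          rintro rfl
          exact S.bot_min hy
        by_cases hp : p = S.bot
        · subst hp
          refine ⟨y, ?_, hys⟩
          simp only [f, if_true, if_neg hq]
          exact GR.zp hy
        · refine ⟨y, ?_, hys⟩
          simp only [f, if_neg hp, if_neg hq]
          exact GR.same hy
      have hσ : σ ≠ S.bot := by
        rintro rfl
        exact S.bot_min h1
      simpa only [f, if_true, if_neg hσ] using h3
    -- paths in `S`
    have hS : ∀ (v : V) (ρ : (F v).E) (σ σ' : S.E) (x : K), S.R σ σ' x → x ≤ s ⊔ s' →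
        TransGen r (.pt v σ ρ) (.pt v σ' ρ) := by
      intro v ρ σ σ' x h1 h2
      refine tg_lift (p := r) (fun τ => GPt.pt v τ ρ) ?_ (S.req s s' h1 hs hs' h2)
      rintro p q ⟨y, hy, hys⟩
      exact ⟨y, GR.same hy, hys⟩
    have hST : ∀ (v : V) (ρ : (F v).E) (σ : S.E) (x : K), S.RT σ x → x ≤ s ⊔ s' →
        ReflTransGen r (.pt v σ ρ) (.pt v S.top ρ) := by
      intro v ρ σ x h1 h2
      rcases h1 with ⟨rfl, _⟩ | h1
      · exact ReflTransGen.refl
      · exact (hS v ρ σ _ x h1 h2).to_reflTransGen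
    -- paths in `F v`
    have hFp : ∀ (v : V) (ρ ρ' : (F v).E), TransGen (fun p q => ∃ y, (F v).R p q y ∧
        (y ≤ s ∨ y ≤ s')) ρ ρ' → TransGen r (.pt v S.top ρ) (.pt v S.top ρ') := by
      intro v ρ ρ' h1
      refine tg_lift (p := r) (fun τ => GPt.pt v S.top τ) ?_ h1
      rintro p q ⟨y, hy, hys⟩
      refine ⟨⊥ ⊔ y, GR.jump S.rt_top hy, ?_⟩
      rwa [bot_sup_eq]
    have hFw : ∀ (v : V) (ρ : (F v).E), TransGen (fun p q => ∃ y, (F v).R p q y ∧
        (y ≤ s ∨ y ≤ s')) ρ (F v).top → TransGen r (.pt v S.top ρ) .w := by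
      intro v ρ h1
      let f : (F v).E → GPt S.E (fun v => (F v).E) :=
        fun τ => if τ = (F v).top then .w else .pt v S.top τ
      have hne : ∀ {p q : (F v).E} {y : K}, (F v).R p q y → p ≠ (F v).top := by
        rintro p q y hy rfl
        exact (F v).top_max hy
      have h3 : TransGen r (f ρ) (f (F v).top) := by
        refine tg_lift f ?_ h1
        rintro p q ⟨y, hy, hys⟩
        have hp := hne hy
        by_cases hq : q = (F v).top
        · subst hq
          refine ⟨⊥ ⊔ y, ?_, by rwa [bot_sup_eq]⟩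
          simp only [f, if_true, if_neg hp]
          exact GR.pw S.rt_top hy
        · refine ⟨⊥ ⊔ y, ?_, by rwa [bot_sup_eq]⟩
          simp only [f, if_neg hp, if_neg hq]
          exact GR.jump S.rt_top hy
      have hρ : ρ ≠ (F v).top := by
        obtain ⟨q, ⟨y, hy, _⟩, _⟩ := TransGen.head'_iff.1 h1
        exact hne hy
      simpa only [f, if_true, if_neg hρ] using h3
    cases h with
    | zw =>
      rcases hreq s s' hs hs' hx with h1 | h1 | ⟨v, h1⟩
      · exact TransGen.single ⟨c, GR.zw, Or.inl h1⟩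
      · exact TransGen.single ⟨c, GR.zw, Or.inr h1⟩
      · exact (hS0 v (F v).bot S.top x1 hx1 (hx1c.trans hx)).trans (hFw v _ h1)
    | zp h1 => exact hS0 _ _ _ _ h1 hx
    | pw h1 h2 =>
      exact TransGen.trans_right (hST _ _ _ _ h1 (le_sup_left.trans hx))
        (hFw _ _ ((F _).req s s' h2 hs hs' (le_sup_right.trans hx)))
    | same h1 => exact hS _ _ _ _ _ h1 hx
    | jump h1 h2 =>
      exact TransGen.trans_right (hST _ _ _ _ h1 (le_sup_left.trans hx))
        (hFp _ _ _ ((F _).req s s' h2 hs hs' (le_sup_right.trans hx)))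

end Glue

end Pool.Agent.MP_094405_al
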