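import Pool.Agent.MP_094405_al.Spine

/-!
# Existence of spines
-/

set_option autoImplicit false
set_option linter.unusedSectionVars false

namespace Pool.Agent.MP_094405_al

open Relation

section Labels

variable {K : Type} [Lattice K] [BoundedOrder K] {m : K}

/-- The labels of a glued spine. -/
theorem glue_labels {S : Spine m} {V : Type} {F : V → Spine m} {c : K} {P : K → Prop}
    (hbot : P ⊥) (hsup : ∀ x y, P x → P y → P (x ⊔ y))
    (hS : ∀ {a b x}, S.R a b x → P x) (hF : ∀ {v a b x}, (F v).R a b x → P x)
    {a b : GPt S.E (fun v => (F v).E)} {x : K} (h : GR S F c a b x) : x = c ∨ P x := by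
  have hRT : ∀ {σ x}, S.RT σ x → P x := by
    rintro σ x (⟨_, rfl⟩ | h)
    · exact hbot
    · exact hS h
  cases h with
  | zw => exact Or.inl rfl
  | zp h => exact Or.inr (hS h)
  | pw h h' => exact Or.inr (hsup _ _ (hRT h) (hF h'))
  | same h => exact Or.inr (hS h)
  | jump h h' => exact Or.inr (hsup _ _ (hRT h) (hF h'))

end Labels

section Exists

variable {K : Type} [Lattice K] [BoundedOrder K] [Finite K] {perp : K → K} {N : K → ℕ}

/-- Every minimal element outside the ideal below `perp x` has rank less than `n`. -/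
def Good (perp : K → K) (n : ℕ) (x : K) : Prop :=
  ∀ s, SupIrred s → star s ≤ perp x → ¬ s ≤ perp x → rk s < n

variable (hp : IsOrtho perp) (hN : ∀ j c : K, D j c → N c < N j)
include hp

theorem good_bot (n : ℕ) : Good perp n ⊥ := by
  intro s _ _ h
  rw [hp.perp_bot] at h
  exact absurd le_top h

theorem good_sup {n : ℕ} {x y : K} (hx : Good perp n x) (hy : Good perp n y) :
    Good perp n (x ⊔ y) := by
  intro s hs h1 h2
  rw [hp.perp_sup] at h1 h2
  rw [le_inf_iff, not_and_or] at h2
  rcases h2 with h2 | h2
  · exact hx s hs (h1.trans inf_le_left) h2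
  · exact hy s hs (h1.trans inf_le_right) h2

omit hp in
theorem good_mono {n n' : ℕ} {x : K} (h : n ≤ n') (hx : Good perp n x) : Good perp n' x :=
  fun s hs h1 h2 => (hx s hs h1 h2).trans_le h

include hN

/-- A minimal element outside the ideal below `perp a` is `sig a` or has smaller rank. -/
theorem rk_of_min {a s : K} (ha : SupIrred a) (hs : SupIrred s) (h1 : star s ≤ perp a)
    (h2 : ¬ s ≤ perp a) : s = sig perp a ∨ rk s < rk a := by
  by_cases hsi : s = sig perp a
  · exact Or.inl hsi
  right
  have hi := supIrred_sig hp hN ha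
  rw [← kap_sig hp hN ha] at h1 h2
  rw [← rk_sig hp hN ha]
  apply rk_lt hN
  refine ⟨hs, hsi, star (sig perp a), ?_, ?_⟩
  · rw [le_kap_iff hp hN hi, not_not] at h2
    rw [sup_comm]
    exact h2
  · rw [le_kap_iff hp hN hi] at h1
    rw [sup_comm]
    exact h1

theorem good_irr {a : K} {n : ℕ} (ha : SupIrred a) (h : rk a < n) : Good perp n a := by
  intro s hs h1 h2
  rcases rk_of_min hp hN ha hs h1 h2 with rfl | h3
  · rw [rk_sig hp hN ha]
    exact h
  · exact h3.trans h

/-- Existence of a good spine for the join-irreducible `j`. -/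
def HasSpine (perp : K → K) (m j : K) : Prop :=
  ∃ S : Spine m, S.R S.bot S.top j ∧ (∀ p y, S.R p S.top y → j ≤ star j ⊔ y) ∧
    ∀ p q x, S.R p q x → x = j ∨ Good perp (rk j) x

theorem exists_spine_set {m : K} (n : ℕ)
    (IH : ∀ a, SupIrred a → a ≤ m → rk a < n → HasSpine perp m a) :
    ∀ (k : ℕ) (A : Finset K), A.card = k → A.Nonempty →
      (∀ a ∈ A, SupIrred a ∧ a ≤ m ∧ rk a < n) →
      (∀ a ∈ A, ∀ c, SupIrred c → c < a → rk c < rk a → c ∈ A) →
      ∃ S : Spine m, S.R S.bot S.top (A.sup id) ∧ ∀ p q x, S.R p q x → Good perp n x := by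
  classical
  intro k
  induction k with
  | zero =>
    intro A hA hne
    rw [Finset.card_eq_zero] at hA
    exact absurd hA hne.ne_empty
  | succ k ih =>
    intro A hcard hne hA hcl
    obtain ⟨a, haA, hmax⟩ := A.exists_max_image rk hne
    obtain ⟨hai, ham, han⟩ := hA a haA
    obtain ⟨Sa, hSa, hSa2, hSa3⟩ := IH a hai ham han
    have hSaG : ∀ {p q x}, Sa.R p q x → Good perp n x := by
      intro p q x h
      rcases hSa3 p q x h with rfl | h
      · exact good_irr hp hN hai han
      · exact good_mono han.le h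
    by_cases hA' : (A.erase a).Nonempty
    · obtain ⟨Sy, hSy, hSyG⟩ := ih (A.erase a)
        (by rw [Finset.card_erase_of_mem haA, hcard]; rfl) hA'
        (fun b hb => hA b (Finset.mem_of_mem_erase hb))
        (by
          intro b hb c hc hcb hrk
          refine Finset.mem_erase.2 ⟨?_, hcl b (Finset.mem_of_mem_erase hb) c hc hcb hrk⟩
          rintro rfl
          exact absurd (hmax b (Finset.mem_of_mem_erase hb)) (not_le_of_gt hrk))
      have hsup : A.sup id = a ⊔ (A.erase a).sup id := by
        conv_lhs => rw [← Finset.insert_erase haA]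
        rw [Finset.sup_insert]
        rfl
      refine ⟨glue Sy (fun _ : Unit => Sa) (A.sup id) ((A.erase a).sup id) hSy ?_ ?_ ?_ ?_,
        GR.zw, ?_⟩
      · rw [hsup]
        exact le_sup_right
      · exact Finset.sup_le (fun b hb => (hA b hb).2.1)
      · intro _ ρ y hy
        rw [hsup]
        refine sup_le ?_ le_sup_left
        refine le_star_sup_refine hp hN (hSa2 ρ y hy) hai ?_
        intro c hc hca hrk
        exact Finset.le_sup (f := id)
          (Finset.mem_erase.2 ⟨hca.ne, hcl a haA c hc hca hrk⟩)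
      · intro s s' hs hs' h
        refine Or.inr (Or.inr ⟨(), Sa.req s s' hSa hs hs' (le_trans ?_ h)⟩)
        rw [hsup]
        exact le_sup_left
      · intro p q x h
        rcases glue_labels (P := Good perp n) (good_bot hp n) (fun _ _ => good_sup hp)
          (fun h => hSyG _ _ _ h) (fun h => hSaG h) h with rfl | h
        · rw [hsup]
          exact good_sup hp (good_irr hp hN hai han) (hSyG _ _ _ hSy)
        · exact h
    · rw [Finset.not_nonempty_iff_eq_empty] at hA'
      have hAa : A.sup id = a := by
        rw [← Finset.insert_erase haA, hA']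
        simp
      exact ⟨Sa, hAa ▸ hSa, fun p q x h => hSaG h⟩

theorem exists_spine {m : K} : ∀ (n : ℕ) (j : K), rk j = n → SupIrred j → j ≤ m →
    HasSpine perp m j := by
  classical
  intro n
  induction n using Nat.strong_induction_on with
  | _ n ih =>
    intro j hjn hj hjm
    by_cases hat : star j = ⊥
    · have hatom : IsAtom j := by
        refine ⟨hj.ne_bot, ?_⟩
        intro b hb
        exact le_bot_iff.1 (hat ▸ le_star hb)
      refine ⟨Spine.two j hj.ne_bot hjm (fun s s' _ _ h => atom_prime hp hN hatom h),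
        ⟨rfl, rfl, rfl⟩, ?_, ?_⟩
      · rintro p y ⟨_, _, rfl⟩
        exact le_sup_right
      · rintro p q x ⟨_, _, rfl⟩
        exact Or.inl rfl
    · set A : Finset K := (Set.toFinite {c | SupIrred c ∧ c < j ∧ rk c < rk j}).toFinset with hA
      have memA : ∀ c, c ∈ A ↔ SupIrred c ∧ c < j ∧ rk c < rk j := by
        intro c
        simp [hA]
      have hAne : A.Nonempty := by
        by_contra hemp
        rw [Finset.not_nonempty_iff_eq_empty] at hemp
        have h1 : j ≤ star j ⊔ perp (star j) := by
          rw [hp.sup_perp]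
          exact le_top
        have h2 := le_star_sup_refine hp hN (w := ⊥) h1 hj (by
          intro c hc hcj hrk
          have := (memA c).2 ⟨hc, hcj, hrk⟩
          rw [hemp] at this
          simp at this)
        rw [bot_sup_eq] at h2
        exact hat (hp.eq_bot_of_le le_rfl ((star_le j).trans h2))
      obtain ⟨Sx, hSx, hSxG⟩ := exists_spine_set hp hN (m := m) n
        (fun a ha ham hrk => ih (rk a) hrk a rfl ha ham) A.card A rfl hAne
        (by
          intro a ha
          rw [memA] at ha
          exact ⟨ha.1, ha.2.1.le.trans hjm, hjn ▸ ha.2.2⟩)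
        (by
          intro a ha c hc hca hrk
          rw [memA] at ha ⊢
          exact ⟨hc, hca.trans ha.2.1, hrk.trans ha.2.2⟩)
      let V := {v : K // SupIrred v ∧ v ≤ m ∧ v ≠ j ∧ j ≤ star j ⊔ v ∧ ¬ j ≤ star j ⊔ star v}
      have hVrk : ∀ v : V, rk v.1 < rk j := by
        rintro ⟨v, hv, hvm, hvj, h1, h2⟩
        apply rk_lt hN
        exact ⟨hv, hvj, star j, by rwa [sup_comm], by rwa [sup_comm]⟩
      have hVex : ∀ v : V, HasSpine perp m v.1 := by
        intro v
        exact ih (rk v.1) (hjn ▸ hVrk v) v.1 rfl v.2.1 v.2.2.1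
      choose F hF1 hF2 hF3 using hVex
      have hxj : A.sup id ≤ j := Finset.sup_le (fun c hc => ((memA c).1 hc).2.1.le)
      have hcl : ∀ (v : V) (ρ : (F v).E) (y : K), (F v).R ρ (F v).top y → j ≤ star j ⊔ y := by
        intro v ρ y hy
        by_contra hcon
        have h1 : y ≤ kap j := (le_kap_iff hp hN hj).2 hcon
        have h2 : star v.1 ≤ kap j := (le_kap_iff hp hN hj).2 v.2.2.2.2.2
        have h3 : v.1 ≤ kap j := (hF2 v ρ y hy).trans (sup_le h2 h1)
        exact (le_kap_iff hp hN hj).1 h3 v.2.2.2.2.1
      have hV : ∀ u ≤ m, ¬ j ≤ u → ¬ u ≤ kap j → ∃ v : V, v.1 ≤ u := by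
        intro u hum hju huk
        obtain ⟨v, hvu, hvi, hvk, hsv⟩ := exists_supIrred_not_le huk
        refine ⟨⟨v, hvi, hvu.trans hum, ?_, ?_, ?_⟩, hvu⟩
        · rintro rfl
          exact hju hvu
        · rw [le_kap_iff hp hN hj, not_not] at hvk
          exact hvk
        · exact (le_kap_iff hp hN hj).1 hsv
      refine ⟨glue Sx F j (A.sup id) hSx hxj hjm ?_ ?_, GR.zw, ?_, ?_⟩
      · intro v ρ y hy
        refine le_star_sup_refine hp hN (hcl v ρ y hy) hj ?_
        intro c hc hcj hrk
        exact Finset.le_sup (f := id) ((memA c).2 ⟨hc, hcj, hrk⟩)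
      · intro s s' hs hs' h
        by_cases h1 : j ≤ s
        · exact Or.inl h1
        by_cases h2 : j ≤ s'
        · exact Or.inr (Or.inl h2)
        refine Or.inr (Or.inr ?_)
        by_cases h3 : s ≤ kap j
        · have h4 : ¬ s' ≤ kap j := by
            intro h4
            exact not_le_kap' hp hN hj (h.trans (sup_le h3 h4))
          obtain ⟨v, hv⟩ := hV s' hs' h2 h4
          exact ⟨v, TransGen.single ⟨_, hF1 v, Or.inr hv⟩⟩
        · obtain ⟨v, hv⟩ := hV s hs h1 h3
          exact ⟨v, TransGen.single ⟨_, hF1 v, Or.inl hv⟩⟩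
      · intro p y h
        change GR Sx F j p .w y at h
        cases h with
        | zw => exact le_sup_right
        | @pw v σ ρ x y h1 h2 =>
          exact (hcl v ρ y h2).trans (sup_le_sup_left le_sup_right _)
      · intro p q x h
        apply glue_labels (P := Good perp (rk j)) (good_bot hp _) (fun _ _ => good_sup hp)
          (fun h => hjn ▸ hSxG _ _ _ h) ?_ h
        intro v a b x h
        rcases hF3 v _ _ _ h with rfl | h
        · exact good_irr hp hN v.2.1 (hVrk v)
        · exact good_mono (hVrk v).le h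

end Exists

end Pool.Agent.MP_094405_al
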