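import Pool.Agent.MP_094405_al.Irr

/-!
# A bounded image of a free lattice has no cycle of the dependency relation

We map the free lattice to the lattice `Tow K` of increasing sequences of lower sets of `K`
closed under joins with a delay of one step.
-/

set_option autoImplicit false
set_option linter.unusedSectionVars false

namespace Pool.Agent.MP_094405_al

/-! ### The universal property of the free lattice -/

section Lift

variable {X L : Type} [Lattice L]

/-- Evaluation of terms. -/
def LTerm.eval (v : X → L) : LTerm X → L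
  | .var x => v x
  | .sup a b => a.eval v ⊔ b.eval v
  | .inf a b => a.eval v ⊓ b.eval v

theorem LTerm.Eqv.eval_eq (v : X → L) {a b : LTerm X} (h : LTerm.Eqv a b) :
    a.eval v = b.eval v := by
  induction h with
  | refl a => rfl
  | symm _ ih => exact ih.symm
  | trans _ _ ih ih' => exact ih.trans ih'
  | sup_congr _ _ ih ih' => simp only [LTerm.eval, ih, ih']
  | inf_congr _ _ ih ih' => simp only [LTerm.eval, ih, ih']
  | sup_comm a b => exact _root_.sup_comm _ _
  | sup_assoc a b c => exact _root_.sup_assoc _ _ _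
  | inf_comm a b => exact _root_.inf_comm _ _
  | inf_assoc a b c => exact _root_.inf_assoc _ _ _
  | sup_inf_self a b => exact _root_.sup_inf_self
  | inf_sup_self a b => exact _root_.inf_sup_self

/-- The homomorphism from the free lattice extending `v`. -/
def FreeLat.lift (v : X → L) (f : FreeLat X) : L :=
  Quotient.lift (LTerm.eval v) (fun _ _ h => LTerm.Eqv.eval_eq v h) f

theorem FreeLat.lift_sup (v : X → L) (f g : FreeLat X) :
    FreeLat.lift v (f ⊔ g) = FreeLat.lift v f ⊔ FreeLat.lift v g := by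
  rcases f with ⟨f⟩
  rcases g with ⟨g⟩
  rfl

theorem FreeLat.lift_inf (v : X → L) (f g : FreeLat X) :
    FreeLat.lift v (f ⊓ g) = FreeLat.lift v f ⊓ FreeLat.lift v g := by
  rcases f with ⟨f⟩
  rcases g with ⟨g⟩
  rfl

theorem FreeLat.lift_of (v : X → L) (x : X) : FreeLat.lift v (FreeLat.of x) = v x := rfl

theorem FreeLat.lift_mono (v : X → L) {f g : FreeLat X} (h : f ≤ g) :
    FreeLat.lift v f ≤ FreeLat.lift v g := by
  have : f ⊔ g = g := sup_eq_right.2 h
  rw [← this, FreeLat.lift_sup]
  exact le_sup_left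

theorem FreeLat.ind {p : FreeLat X → Prop} (hof : ∀ x, p (FreeLat.of x))
    (hsup : ∀ f g, p f → p g → p (f ⊔ g)) (hinf : ∀ f g, p f → p g → p (f ⊓ g)) :
    ∀ f, p f := by
  rintro ⟨f⟩
  induction f with
  | var x => exact hof x
  | sup a b iha ihb => exact hsup (Quotient.mk _ a) (Quotient.mk _ b) iha ihb
  | inf a b iha ihb => exact hinf (Quotient.mk _ a) (Quotient.mk _ b) iha ihb

end Lift

/-! ### The lattice `Tow K` -/

/-- Sequences of lower sets in which joins of two elements of one term lie in the next term. -/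
def Tow (K : Type) [Lattice K] : Type :=
  {I : ℕ → Set K // (∀ n, IsLowerSet (I n)) ∧ ∀ n a b, a ∈ I n → b ∈ I n → a ⊔ b ∈ I (n + 1)}

namespace Tow

variable {K : Type} [Lattice K]

instance : PartialOrder (Tow K) := Subtype.partialOrder _

/-- The sequence of the join. -/
def supSeq (I J : ℕ → Set K) : ℕ → Set K
  | 0 => I 0 ∪ J 0
  | n + 1 => (I (n + 1) ∪ J (n + 1)) ∪ {x | ∃ a ∈ supSeq I J n, ∃ b ∈ supSeq I J n, x ≤ a ⊔ b}

theorem mem_supSeq_left {I J : ℕ → Set K} {n : ℕ} {x : K} (h : x ∈ I n) :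
    x ∈ supSeq I J n := by
  cases n with
  | zero => exact Or.inl h
  | succ n => exact Or.inl (Or.inl h)

theorem mem_supSeq_right {I J : ℕ → Set K} {n : ℕ} {x : K} (h : x ∈ J n) :
    x ∈ supSeq I J n := by
  cases n with
  | zero => exact Or.inr h
  | succ n => exact Or.inl (Or.inr h)

instance : Lattice (Tow K) :=
  { (inferInstance : PartialOrder (Tow K)) with
    sup := fun I J => ⟨supSeq I.1 J.1, by
      constructor
      · intro n
        cases n with
        | zero => exact (I.2.1 0).union (J.2.1 0)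
        | succ n =>
          refine ((I.2.1 _).union (J.2.1 _)).union ?_
          rintro x y hyx ⟨a, ha, b, hb, hx⟩
          exact ⟨a, ha, b, hb, hyx.trans hx⟩
      · intro n a b ha hb
        exact Or.inr ⟨a, ha, b, hb, le_rfl⟩⟩
    inf := fun I J => ⟨fun n => I.1 n ∩ J.1 n,
      fun n => (I.2.1 n).inter (J.2.1 n),
      fun n a b ha hb => ⟨I.2.2 n a b ha.1 hb.1, J.2.2 n a b ha.2 hb.2⟩⟩
    le_sup_left := fun I J n x hx => mem_supSeq_left hx
    le_sup_right := fun I J n x hx => mem_supSeq_right hx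
    sup_le := by
      intro I J T hI hJ n
      induction n with
      | zero => exact Set.union_subset (hI 0) (hJ 0)
      | succ n ih =>
        refine Set.union_subset (Set.union_subset (hI _) (hJ _)) ?_
        rintro x ⟨a, ha, b, hb, hx⟩
        exact T.2.1 (n + 1) hx (T.2.2 n a b (ih ha) (ih hb))
    inf_le_left := fun I J n x hx => hx.1
    inf_le_right := fun I J n x hx => hx.2
    le_inf := fun I J T hJ hT n x hx => ⟨hJ n hx, hT n hx⟩ }

theorem sup_val (I J : Tow K) : (I ⊔ J).1 = supSeq I.1 J.1 := rfl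

theorem inf_val (I J : Tow K) (n : ℕ) : (I ⊓ J).1 n = I.1 n ∩ J.1 n := rfl

theorem mono_succ (I : Tow K) (n : ℕ) : I.1 n ⊆ I.1 (n + 1) := by
  intro x hx
  have := I.2.2 n x x hx hx
  rwa [sup_idem] at this

theorem mono' (I : Tow K) {n m : ℕ} (h : n ≤ m) : I.1 n ⊆ I.1 m := by
  induction h with
  | refl => exact subset_rfl
  | step _ ih => exact ih.trans (mono_succ I _)

/-- The constant tower of a principal ideal. -/
def const (a : K) : Tow K :=
  ⟨fun _ => {x | x ≤ a}, fun _ => isLowerSet_Iic a, fun _ _ _ hx hy => sup_le hx hy⟩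

/-- The tower `I` converges to `a`. -/
def Lim (I : Tow K) (a : K) : Prop := ∀ k, (∃ n, k ∈ I.1 n) ↔ k ≤ a

theorem lim_const (a : K) : Lim (const a) a := by
  intro k
  exact ⟨fun ⟨_, h⟩ => h, fun h => ⟨0, h⟩⟩

theorem Lim.sup {I J : Tow K} {a b : K} (hI : Lim I a) (hJ : Lim J b) : Lim (I ⊔ J) (a ⊔ b) := by
  intro k
  constructor
  · rintro ⟨n, hn⟩
    rw [sup_val] at hn
    induction n generalizing k with
    | zero =>
      rcases hn with h | h
      · exact ((hI k).1 ⟨_, h⟩).trans le_sup_left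
      · exact ((hJ k).1 ⟨_, h⟩).trans le_sup_right
    | succ n ih =>
      rcases hn with (h | h) | ⟨x, hx, y, hy, hk⟩
      · exact ((hI k).1 ⟨_, h⟩).trans le_sup_left
      · exact ((hJ k).1 ⟨_, h⟩).trans le_sup_right
      · exact hk.trans (sup_le (ih x hx) (ih y hy))
  · intro hk
    obtain ⟨n, hn⟩ := (hI a).2 le_rfl
    obtain ⟨m, hm⟩ := (hJ b).2 le_rfl
    refine ⟨max n m + 1, ?_⟩
    rw [sup_val]
    exact Or.inr ⟨a, mem_supSeq_left (I.mono' (le_max_left _ _) hn), b,
      mem_supSeq_right (J.mono' (le_max_right _ _) hm), hk⟩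

theorem Lim.inf {I J : Tow K} {a b : K} (hI : Lim I a) (hJ : Lim J b) : Lim (I ⊓ J) (a ⊓ b) := by
  intro k
  constructor
  · rintro ⟨n, hn⟩
    rw [inf_val] at hn
    exact le_inf ((hI k).1 ⟨_, hn.1⟩) ((hJ k).1 ⟨_, hn.2⟩)
  · intro hk
    obtain ⟨n, hn⟩ := (hI k).2 (hk.trans inf_le_left)
    obtain ⟨m, hm⟩ := (hJ k).2 (hk.trans inf_le_right)
    exact ⟨max n m, I.mono' (le_max_left _ _) hn, J.mono' (le_max_right _ _) hm⟩

end Tow

section Main

variable {K : Type} [Lattice K] [BoundedOrder K] [Finite K]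

/-- In a finite lattice that is a bounded homomorphic image of a free lattice, the dependency
relation decreases a natural number. -/
theorem exists_dep_rank (hK : IsBoundedImageOfFree K) :
    ∃ N : K → ℕ, ∀ j c, D j c → N c < N j := by
  classical
  obtain ⟨X, _, h, hsurj, hfib⟩ := hK
  choose β hβ using fun a => (hfib a).1
  have hβh : ∀ a, h (β a) = a := fun a => (hβ a).1
  have hβle : ∀ a f, a ≤ h f → β a ≤ f := by
    intro a f haf
    have : β a ≤ f ⊓ β a := (hβ a).2 (by
      change h (f ⊓ β a) = a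
      rw [map_inf, hβh]
      exact inf_eq_right.2 haf)
    exact this.trans inf_le_left
  let H : FreeLat X → Tow K := FreeLat.lift (fun x => Tow.const (h (FreeLat.of x)))
  have hlim : ∀ f, Tow.Lim (H f) (h f) := by
    apply FreeLat.ind
    · intro x
      exact Tow.lim_const _
    · intro f g hf hg
      have := hf.sup hg
      rw [← map_sup] at this
      change Tow.Lim (FreeLat.lift _ (f ⊔ g)) _
      rw [FreeLat.lift_sup]
      exact this
    · intro f g hf hg
      have := hf.inf hg
      rw [← map_inf] at this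
      change Tow.Lim (FreeLat.lift _ (f ⊓ g)) _
      rw [FreeLat.lift_inf]
      exact this
  have hex : ∀ a, ∃ n, a ∈ (H (β a)).1 n := by
    intro a
    exact ((hlim (β a)) a).2 (hβh a).ge
  refine ⟨fun a => Nat.find (hex a), ?_⟩
  rintro j c ⟨hirr, hne, t, hjt, hjt'⟩
  have hV : β j ≤ β c ⊔ β t := hβle _ _ (by rw [map_sup, hβh, hβh]; exact hjt)
  have hV' : H (β j) ≤ H (β c) ⊔ H (β t) := by
    have := FreeLat.lift_mono (fun x => Tow.const (h (FreeLat.of x))) hV
    rw [FreeLat.lift_sup] at this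
    exact this
  have hjV : j ∈ Tow.supSeq (H (β c)).1 (H (β t)).1 (Nat.find (hex j)) :=
    hV' _ (Nat.find_spec (hex j))
  obtain ⟨n, ⟨y, hy, hyw⟩, hmin⟩ : ∃ n, (∃ y ∈ Tow.supSeq (H (β c)).1 (H (β t)).1 n,
      ¬ y ≤ star c ⊔ t) ∧ ∀ m < n, ∀ y ∈ Tow.supSeq (H (β c)).1 (H (β t)).1 m,
      y ≤ star c ⊔ t := by
    have hex2 : ∃ n, ∃ y ∈ Tow.supSeq (H (β c)).1 (H (β t)).1 n, ¬ y ≤ star c ⊔ t :=
      ⟨_, j, hjV, hjt'⟩
    refine ⟨Nat.find hex2, Nat.find_spec hex2, ?_⟩
    intro m hm y hy
    by_contra hcon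
    exact Nat.find_min hex2 hm ⟨y, hy, hcon⟩
  have key : ∀ y ∈ Tow.supSeq (H (β c)).1 (H (β t)).1 n, ¬ y ≤ star c ⊔ t →
      y = c ∧ c ∈ (H (β c)).1 n := by
    intro y hy hyw
    have hor : y ∈ (H (β c)).1 n ∨ y ∈ (H (β t)).1 n := by
      rcases n with _ | n
      · exact hy
      · rcases hy with hy | ⟨a, ha, b, hb, hab⟩
        · exact hy
        · exfalso
          exact hyw (hab.trans (sup_le (hmin n (Nat.lt_succ_self n) a ha)
            (hmin n (Nat.lt_succ_self n) b hb)))
    rcases hor with hor | hor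
    · have hyc : y ≤ c := by
        have := (hlim (β c) y).1 ⟨_, hor⟩
        rwa [hβh] at this
      have : y = c := by
        by_contra hne'
        exact hyw ((le_star (lt_of_le_of_ne hyc hne')).trans le_sup_left)
      subst this
      exact ⟨rfl, hor⟩
    · exfalso
      have := (hlim (β t) y).1 ⟨_, hor⟩
      rw [hβh] at this
      exact hyw (this.trans le_sup_right)
  have h1 : Nat.find (hex c) ≤ n := Nat.find_min' _ (key y hy hyw).2
  have h2 : n ≤ Nat.find (hex j) := by
    by_contra hcon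
    push Not at hcon
    exact hjt' (hmin _ hcon j hjV)
  have h3 : n ≠ Nat.find (hex j) := by
    intro he
    rw [← he] at hjV
    exact hne (key j hjV hjt').1.symm
  exact lt_of_le_of_lt h1 (lt_of_le_of_ne h2 h3)

end Main

end Pool.Agent.MP_094405_al
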